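import Mathlib
import Pool.Agent.Helper112.Arith

/-!
# Integers that are `m`-full outside a small set of primes
-/

set_option autoImplicit false
set_option linter.all false

namespace Pool.Agent.L0h11.RP

open Finset

/-- the factorization -/
theorem decomp (m : ℕ) (hm : 1 ≤ m) (n : ℕ) : 0 < n → ∃ r s b a : ℕ, 0 < r ∧ 0 < s ∧ 0 < b ∧ 0 < a ∧
    n = s * b * a ^ m ∧ r ∣ s ∧ s ∣ r ^ (m - 1) ∧ b ∣ a ^ (m - 1) ∧ Squarefree r ∧
    ∀ p : ℕ, p.Prime → p ∣ r → p ∣ n ∧ ¬ p ^ m ∣ n := by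
  induction n using Nat.recOnPosPrimePosCoprime with
  | prime_pow p e hp he =>
    intro _
    rcases Nat.lt_or_ge e m with h | h
    · refine ⟨p, p ^ e, 1, 1, hp.pos, pow_pos hp.pos _, one_pos, one_pos, by simp,
        dvd_pow_self p he.ne', pow_dvd_pow p (by omega), one_dvd _, hp.squarefree, ?_⟩
      intro l hl hlp
      have hlp' : l = p := (Nat.prime_dvd_prime_iff_eq hl hp).1 hlp
      subst hlp'
      refine ⟨dvd_pow_self l he.ne', fun h1 => ?_⟩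
      have := (Nat.pow_dvd_pow_iff_le_right hl.one_lt).1 h1
      omega
    · refine ⟨1, 1, p ^ (e % m), p ^ (e / m), one_pos, one_pos, pow_pos hp.pos _, pow_pos hp.pos _,
        ?_, dvd_refl _, by simp, ?_, squarefree_one, ?_⟩
      · rw [one_mul, ← pow_mul, ← pow_add]
        congr 1
        rw [mul_comm]
        exact (Nat.mod_add_div e m).symm
      · rw [← pow_mul]
        refine pow_dvd_pow p ?_
        have h1 : e % m < m := Nat.mod_lt _ (by omega)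
        have h2 : 1 ≤ e / m := (Nat.one_le_div_iff (by omega)).2 h
        calc e % m ≤ 1 * (m - 1) := by omega
          _ ≤ e / m * (m - 1) := Nat.mul_le_mul_right _ h2
      · intro l hl hl1
        exact absurd (Nat.dvd_one.1 hl1) hl.one_lt.ne'
  | zero => intro h; exact absurd h (lt_irrefl 0)
  | one =>
    intro _
    refine ⟨1, 1, 1, 1, one_pos, one_pos, one_pos, one_pos, by simp, dvd_refl _, by simp, by simp,
      squarefree_one, ?_⟩
    intro l hl hl1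
    exact absurd (Nat.dvd_one.1 hl1) hl.one_lt.ne'
  | coprime n₁ n₂ h₁ h₂ hc ih₁ ih₂ =>
    intro _
    obtain ⟨r₁, s₁, b₁, a₁, hr₁, hs₁, hb₁, ha₁, e₁, d₁, f₁, g₁, q₁, k₁⟩ := ih₁ (by omega)
    obtain ⟨r₂, s₂, b₂, a₂, hr₂, hs₂, hb₂, ha₂, e₂, d₂, f₂, g₂, q₂, k₂⟩ := ih₂ (by omega)
    have hr1n : r₁ ∣ n₁ := by
      rw [e₁, mul_assoc]
      exact d₁.trans (dvd_mul_right _ _)
    have hr2n : r₂ ∣ n₂ := by
      rw [e₂, mul_assoc]
      exact d₂.trans (dvd_mul_right _ _)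
    have hcr : Nat.Coprime r₁ r₂ := Nat.Coprime.coprime_dvd_left hr1n (Nat.Coprime.coprime_dvd_right hr2n hc)
    refine ⟨r₁ * r₂, s₁ * s₂, b₁ * b₂, a₁ * a₂, Nat.mul_pos hr₁ hr₂, Nat.mul_pos hs₁ hs₂,
      Nat.mul_pos hb₁ hb₂, Nat.mul_pos ha₁ ha₂, ?_, mul_dvd_mul d₁ d₂, ?_, ?_,
      (Nat.squarefree_mul hcr).2 ⟨q₁, q₂⟩, ?_⟩
    · rw [mul_pow]
      conv_lhs => rw [e₁, e₂]
      ring
    · rw [mul_pow]
      exact mul_dvd_mul f₁ f₂
    · rw [mul_pow]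
      exact mul_dvd_mul g₁ g₂
    · intro p hp hpr
      rcases (Nat.Prime.dvd_mul hp).1 hpr with h | h
      · obtain ⟨h3, h4⟩ := k₁ p hp h
        refine ⟨h3.trans (dvd_mul_right _ _), fun h5 => h4 ?_⟩
        have h6 : Nat.Coprime (p ^ m) n₂ :=
          Nat.Coprime.pow_left m (Nat.Coprime.coprime_dvd_left h3 hc)
        exact h6.dvd_of_dvd_mul_right h5
      · obtain ⟨h3, h4⟩ := k₂ p hp h
        refine ⟨h3.trans (dvd_mul_left _ _), fun h5 => h4 ?_⟩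
        have h6 : Nat.Coprime (p ^ m) n₁ :=
          Nat.Coprime.pow_left m (Nat.Coprime.coprime_dvd_left h3 hc.symm)
        exact h6.dvd_of_dvd_mul_left h5

/-- The integer `v` is `m`-full outside a set of primes with product at most `Q`. -/
def Good (m : ℕ∞) (Q : ℕ) (v : ℤ) : Prop :=
  ∃ S : Finset ℕ, (∀ p ∈ S, p.Prime) ∧ ∏ p ∈ S, p ≤ Q ∧
    ∀ p : ℕ, p.Prime → p ∉ S → (p : ℤ) ∣ v → ∀ k : ℕ, (k : ℕ∞) ≤ m → (p : ℤ) ^ k ∣ v

theorem good_decomp {m : ℕ} (hm : 1 ≤ m) {Q : ℕ} {v : ℤ} (hv : v ≠ 0) (h : Good m Q v) :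
    ∃ r s b a : ℕ, 0 < r ∧ 0 < s ∧ 0 < b ∧ 0 < a ∧ v.natAbs = s * b * a ^ m ∧ r ∣ s ∧ r ≤ Q ∧
      s ∣ r ^ (m - 1) ∧ b ∣ a ^ (m - 1) := by
  obtain ⟨S, hS, hQ, hv'⟩ := h
  obtain ⟨r, s, b, a, hr, hs, hb, ha, e, d, f, g, q, k⟩ := decomp m hm v.natAbs (Int.natAbs_pos.2 hv)
  refine ⟨r, s, b, a, hr, hs, hb, ha, e, d, ?_, f, g⟩
  refine le_trans ?_ hQ
  have h1 : r.primeFactors ⊆ S := by
    intro p hp
    have hpp := Nat.prime_of_mem_primeFactors hp
    obtain ⟨h3, h4⟩ := k p hpp (Nat.dvd_of_mem_primeFactors hp)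
    by_contra hpS
    apply h4
    have h5 := hv' p hpp hpS (Int.natCast_dvd.2 h3) m le_rfl
    have h6 : ((p ^ m : ℕ) : ℤ) ∣ v := by
      push_cast
      exact h5
    exact Int.natCast_dvd.1 h6
  have h2 : ∏ p ∈ r.primeFactors, p = r := Nat.prod_primeFactors_of_squarefree q
  rw [← h2]
  exact prod_le_prod_of_subset_of_one_le' h1 fun p hp _ => (hS p hp).one_le

open Classical in
/-- the number of the pairs -/
theorem count_le {m : ℕ} (hm : 1 ≤ m) (V Q : ℕ) {D : ℝ} (hD0 : 0 ≤ D)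
    (hD : ∀ n : ℕ, 1 ≤ n → (n ≤ V ∨ n ≤ Q) → ((n ^ (m - 1)).divisors.card : ℝ) ≤ D) :
    (((Icc (-(V : ℤ)) V).filter (Good m Q)).card : ℝ) ≤
      1 + 2 * D ^ 2 * ∑ r ∈ Icc 1 Q, (((Icc 1 V).filter fun a => r * a ^ m ≤ V).card : ℝ) := by
  let P : Finset (Σ _ : ℕ, ℕ) := (Icc 1 Q).sigma fun r => (Icc 1 V).filter fun a => r * a ^ m ≤ V
  let T : Finset (Σ _ : (Σ _ : ℕ, ℕ), ℕ × ℕ × Bool) := P.sigma fun z =>
    (z.1 ^ (m - 1)).divisors ×ˢ ((z.2 ^ (m - 1)).divisors ×ˢ (univ : Finset Bool))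
  let φ : (Σ _ : (Σ _ : ℕ, ℕ), ℕ × ℕ × Bool) → ℤ := fun t =>
    (if t.2.2.2 then 1 else -1) * ((t.2.1 * t.2.2.1 * t.1.2 ^ m : ℕ) : ℤ)
  have hsub : (Icc (-(V : ℤ)) V).filter (Good m Q) ⊆ insert 0 (T.image φ) := by
    intro v hv
    rw [mem_filter, mem_Icc] at hv
    rw [mem_insert]
    by_cases h0 : v = 0
    · exact Or.inl h0
    · right
      obtain ⟨r, s, b, a, hr, hs, hb, ha, e, d, hrQ, f, g⟩ := good_decomp hm h0 hv.2
      have hvV : v.natAbs ≤ V := by omega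
      have h1 : r * a ^ m ≤ V := by
        refine le_trans ?_ hvV
        rw [e]
        calc r * a ^ m ≤ s * a ^ m := Nat.mul_le_mul_right _ (Nat.le_of_dvd hs d)
          _ = s * 1 * a ^ m := by ring
          _ ≤ s * b * a ^ m := Nat.mul_le_mul_right _ (Nat.mul_le_mul_left _ hb)
      have h2 : a ≤ V := by
        refine le_trans ?_ h1
        calc a ≤ a ^ m := Nat.le_self_pow (by omega) a
          _ = 1 * a ^ m := (one_mul _).symm
          _ ≤ r * a ^ m := Nat.mul_le_mul_right _ hr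
      rw [mem_image]
      refine ⟨⟨⟨r, a⟩, (s, b, decide (0 < v))⟩, ?_, ?_⟩
      · rw [mem_sigma, mem_sigma, mem_product, mem_product]
        exact ⟨⟨mem_Icc.2 ⟨hr, hrQ⟩, mem_filter.2 ⟨mem_Icc.2 ⟨ha, h2⟩, h1⟩⟩,
          Nat.mem_divisors.2 ⟨f, (pow_pos hr _).ne'⟩,
          Nat.mem_divisors.2 ⟨g, (pow_pos ha _).ne'⟩, mem_univ _⟩
      · show (if decide (0 < v) = true then (1 : ℤ) else -1) * ((s * b * a ^ m : ℕ) : ℤ) = v
        rw [← e]
        by_cases hpos : 0 < v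
        · rw [if_pos (by simpa using hpos), one_mul]
          omega
        · rw [if_neg (by simpa using hpos)]
          omega
  have hcard := (card_le_card hsub).trans (card_insert_le _ _)
  have hcard2 : (((Icc (-(V : ℤ)) V).filter (Good m Q)).card : ℝ) ≤ (T.card : ℝ) + 1 := by
    have h1 := card_image_le (s := T) (f := φ)
    exact_mod_cast hcard.trans (Nat.add_le_add_right h1 1)
  refine hcard2.trans ?_
  have hT : (T.card : ℝ) ≤ ∑ z ∈ P, 2 * D ^ 2 := by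
    rw [card_sigma]
    push_cast
    refine sum_le_sum fun z hz => ?_
    rw [mem_sigma, mem_Icc, mem_filter, mem_Icc] at hz
    rw [card_product, card_product, card_univ, Fintype.card_bool]
    push_cast
    have h1 := hD z.1 hz.1.1 (Or.inr hz.1.2)
    have h2 := hD z.2 hz.2.1.1 (Or.inl hz.2.1.2)
    calc _ ≤ D * (D * 2) := mul_le_mul h1 (mul_le_mul_of_nonneg_right h2 (by norm_num))
          (by positivity) hD0
      _ = _ := by ring
  have hP : ∑ z ∈ P, 2 * D ^ 2 = 2 * D ^ 2 *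
      ∑ r ∈ Icc 1 Q, (((Icc 1 V).filter fun a => r * a ^ m ≤ V).card : ℝ) := by
    rw [sum_const, nsmul_eq_mul, card_sigma]
    push_cast
    ring
  linarith

/-- **The number of the integers that are full outside a small set of primes.** -/
theorem good_le {m : ℕ} (hm : 1 ≤ m) {ε : ℝ} (hε : 0 < ε) : ∃ C : ℝ, 0 < C ∧ ∀ V Q : ℕ, 1 ≤ V → 1 ≤ Q →
    (by classical exact (((Icc (-(V : ℤ)) V).filter (Good m Q)).card : ℝ)) ≤
      C * (V : ℝ) ^ (1 / (m : ℝ) + ε) * (Q : ℝ) ^ (1 - 1 / (m : ℝ) + ε) := by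
  classical
  set μ : ℝ := 1 / (m : ℝ) with hμ
  have hm0 : (0 : ℝ) < m := by exact_mod_cast hm
  have hμ0 : 0 < μ := by positivity
  have hμ1 : μ ≤ 1 := by
    rw [hμ, div_le_one hm0]
    exact_mod_cast hm
  obtain ⟨C, hC, hdiv⟩ := Pool.Agent.Helper112.divisor_bound (ε / (4 * m)) (by positivity)
  refine ⟨1 + 2 * C ^ 2 * (1 + 2 / ε), by positivity, fun V Q hV hQ => ?_⟩
  have hV1 : (1 : ℝ) ≤ V := by exact_mod_cast hV
  have hQ1 : (1 : ℝ) ≤ Q := by exact_mod_cast hQ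
  set D : ℝ := C * ((V : ℝ) * Q) ^ (ε / 4) with hD
  have hD0 : 0 ≤ D := by positivity
  have hDn : ∀ n : ℕ, 1 ≤ n → (n ≤ V ∨ n ≤ Q) → ((n ^ (m - 1)).divisors.card : ℝ) ≤ D := by
    intro n hn hnVQ
    have hn1 : (1 : ℝ) ≤ n := by exact_mod_cast hn
    have h1 := hdiv (n ^ (m - 1)) (Nat.one_le_pow _ _ hn)
    refine h1.trans ?_
    rw [hD]
    refine mul_le_mul_of_nonneg_left ?_ hC.le
    have h2 : (n : ℝ) ≤ (V : ℝ) * Q := by
      rcases hnVQ with h | h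
      · have : (n : ℝ) ≤ V := by exact_mod_cast h
        nlinarith
      · have : (n : ℝ) ≤ Q := by exact_mod_cast h
        nlinarith
    have h3 : ((n ^ (m - 1) : ℕ) : ℝ) ≤ (n : ℝ) ^ (m : ℝ) := by
      rw [Real.rpow_natCast]
      push_cast
      exact pow_le_pow_right₀ hn1 (by omega)
    calc ((n ^ (m - 1) : ℕ) : ℝ) ^ (ε / (4 * m)) ≤ ((n : ℝ) ^ (m : ℝ)) ^ (ε / (4 * m)) :=
          Real.rpow_le_rpow (by positivity) h3 (by positivity)
      _ = (n : ℝ) ^ (ε / 4) := by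
          rw [← Real.rpow_mul (by positivity)]
          congr 1
          field_simp
      _ ≤ _ := Real.rpow_le_rpow (by positivity) h2 (by positivity)
  refine (count_le hm V Q hD0 hDn).trans ?_
  -- the pairs
  have hpairs : ∑ r ∈ Icc 1 Q, (((Icc 1 V).filter fun a => r * a ^ m ≤ V).card : ℝ) ≤
      (V : ℝ) ^ μ * (Q : ℝ) ^ (1 - μ) * (1 + Real.log Q) := by
    have h1 : ∀ r ∈ Icc 1 Q, (((Icc 1 V).filter fun a => r * a ^ m ≤ V).card : ℝ) ≤
        (V : ℝ) ^ μ * (Q : ℝ) ^ (1 - μ) * ((r : ℝ))⁻¹ := by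
      intro r hr
      rw [mem_Icc] at hr
      have hr1 : (1 : ℝ) ≤ r := by exact_mod_cast hr.1
      have hr0 : (0 : ℝ) < r := by linarith
      have h2 : ((Icc 1 V).filter fun a => r * a ^ m ≤ V) ⊆ Icc 1 ⌊((V : ℝ) / r) ^ μ⌋₊ := by
        intro a ha
        rw [mem_filter, mem_Icc] at ha
        rw [mem_Icc]
        refine ⟨ha.1.1, Nat.le_floor ?_⟩
        have h3 : (r : ℝ) * (a : ℝ) ^ m ≤ V := by exact_mod_cast ha.2
        have h4 : (a : ℝ) ^ m ≤ (V : ℝ) / r := by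
          rw [le_div_iff₀ hr0]
          linarith
        have h5 : (a : ℝ) = ((a : ℝ) ^ m) ^ μ := by
          rw [← Real.rpow_natCast, ← Real.rpow_mul (by positivity), hμ, mul_one_div_cancel hm0.ne',
            Real.rpow_one]
        rw [h5]
        exact Real.rpow_le_rpow (by positivity) h4 hμ0.le
      have h3 : (((Icc 1 V).filter fun a => r * a ^ m ≤ V).card : ℝ) ≤ ((V : ℝ) / r) ^ μ := by
        have h4 := card_le_card h2
        rw [Nat.card_Icc, Nat.add_sub_cancel] at h4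
        refine le_trans (by exact_mod_cast h4) (Nat.floor_le (by positivity))
      refine h3.trans ?_
      rw [Real.div_rpow (by positivity) hr0.le, mul_assoc]
      rw [div_eq_mul_inv]
      refine mul_le_mul_of_nonneg_left ?_ (by positivity)
      have h4 : (r : ℝ) ^ (1 - μ) ≤ (Q : ℝ) ^ (1 - μ) :=
        Real.rpow_le_rpow hr0.le (by exact_mod_cast hr.2) (by linarith)
      rw [← Real.rpow_neg hr0.le]
      calc (r : ℝ) ^ (-μ) = (r : ℝ) ^ (1 - μ) * (r : ℝ)⁻¹ := by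
            rw [← Real.rpow_neg_one, ← Real.rpow_add hr0]
            congr 1
            ring
        _ ≤ _ := mul_le_mul_of_nonneg_right h4 (by positivity)
    refine (sum_le_sum h1).trans ?_
    rw [← mul_sum]
    refine mul_le_mul_of_nonneg_left ?_ (by positivity)
    have h2 := harmonic_le_one_add_log Q
    have h3 : ((harmonic Q : ℚ) : ℝ) = ∑ r ∈ Icc 1 Q, ((r : ℝ))⁻¹ := by
      rw [harmonic_eq_sum_Icc]
      push_cast
      rfl
    rwa [h3] at h2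
  have hlog : 1 + Real.log Q ≤ (1 + 2 / ε) * (Q : ℝ) ^ (ε / 2) := by
    have h1 := Real.log_le_rpow_div (x := (Q : ℝ)) (by positivity) (ε := ε / 2) (by positivity)
    have h2 : (1 : ℝ) ≤ (Q : ℝ) ^ (ε / 2) := Real.one_le_rpow hQ1 (by positivity)
    have h3 : (Q : ℝ) ^ (ε / 2) / (ε / 2) = 2 / ε * (Q : ℝ) ^ (ε / 2) := by
      field_simp
    rw [h3] at h1
    linarith
  have hD2 : D ^ 2 = C ^ 2 * ((V : ℝ) ^ (ε / 2) * (Q : ℝ) ^ (ε / 2)) := by
    rw [hD, mul_pow, ← Real.rpow_natCast (((V : ℝ) * Q) ^ (ε / 4)), ← Real.rpow_mul (by positivity),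
      Real.mul_rpow (by positivity) (by positivity)]
    congr 3 <;> · push_cast; ring
  have hVe : (V : ℝ) ^ (ε / 2) ≤ (V : ℝ) ^ ε := Real.rpow_le_rpow_of_exponent_le hV1 (by linarith)
  calc 1 + 2 * D ^ 2 * ∑ r ∈ Icc 1 Q, (((Icc 1 V).filter fun a => r * a ^ m ≤ V).card : ℝ) ≤
      1 + 2 * D ^ 2 * ((V : ℝ) ^ μ * (Q : ℝ) ^ (1 - μ) * ((1 + 2 / ε) * (Q : ℝ) ^ (ε / 2))) := by
        have h1 := hpairs.trans (mul_le_mul_of_nonneg_left hlog (by positivity))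
        have h2 := mul_le_mul_of_nonneg_left h1 (by positivity : 0 ≤ 2 * D ^ 2)
        linarith
    _ = 1 + 2 * C ^ 2 * (1 + 2 / ε) * (((V : ℝ) ^ (ε / 2) * (V : ℝ) ^ μ) *
        ((Q : ℝ) ^ (1 - μ) * ((Q : ℝ) ^ (ε / 2) * (Q : ℝ) ^ (ε / 2)))) := by
        rw [hD2]
        ring
    _ ≤ 1 + 2 * C ^ 2 * (1 + 2 / ε) * (((V : ℝ) ^ ε * (V : ℝ) ^ μ) *
        ((Q : ℝ) ^ (1 - μ) * ((Q : ℝ) ^ (ε / 2) * (Q : ℝ) ^ (ε / 2)))) := by
        gcongr
    _ = 1 + 2 * C ^ 2 * (1 + 2 / ε) * ((V : ℝ) ^ (μ + ε) * (Q : ℝ) ^ (1 - μ + ε)) := by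
        rw [← Real.rpow_add (by positivity), ← Real.rpow_add (by positivity),
          ← Real.rpow_add (by positivity)]
        congr 3
        · ring_nf
        · ring_nf
    _ ≤ (V : ℝ) ^ (μ + ε) * (Q : ℝ) ^ (1 - μ + ε) +
        2 * C ^ 2 * (1 + 2 / ε) * ((V : ℝ) ^ (μ + ε) * (Q : ℝ) ^ (1 - μ + ε)) := by
        have h1 : 1 ≤ (V : ℝ) ^ (μ + ε) := Real.one_le_rpow hV1 (by linarith)
        have h2 : 1 ≤ (Q : ℝ) ^ (1 - μ + ε) := Real.one_le_rpow hQ1 (by linarith)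
        have h3 : 1 ≤ (V : ℝ) ^ (μ + ε) * (Q : ℝ) ^ (1 - μ + ε) := one_le_mul_of_one_le_of_one_le h1 h2
        linarith
    _ = _ := by ring

end Pool.Agent.L0h11.RP
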