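import Mathlib
import Pool.Agent.L0h11.I.Df

/-!
# The values of random forms at a point
-/

set_option autoImplicit false
set_option linter.all false

namespace Pool.Agent.L0h11.RP

open Finset MvPolynomial
open Pool.Agent.L0h11 (Monomials)

section residues

variable {J : Type} [Fintype J] [DecidableEq J] {B : ℕ} [NeZero B]

/-- the sums with coefficients at most `h` -/
def PP (g : J → ZMod B) (h : ℕ) : Finset (ZMod B) :=
  (Fintype.piFinset fun _ : J => range (h + 1)).image fun a => ∑ j, (a j : ZMod B) * g j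

lemma zero_mem_PP (g : J → ZMod B) (h : ℕ) : (0 : ZMod B) ∈ PP g h := by
  unfold PP
  rw [mem_image]
  refine ⟨fun _ => 0, ?_, by simp⟩
  rw [Fintype.mem_piFinset]
  intro j
  simp

lemma PP_mono (g : J → ZMod B) (h : ℕ) : PP g h ⊆ PP g (h + 1) := by
  unfold PP
  refine image_subset_image ?_
  intro a ha
  rw [Fintype.mem_piFinset] at ha ⊢
  intro j
  have := ha j
  rw [mem_range] at this ⊢
  omega

lemma PP_add (g : J → ZMod B) (h : ℕ) {z : ZMod B} (hz : z ∈ PP g h) (j : J) :
    z + g j ∈ PP g (h + 1) := by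
  unfold PP at hz ⊢
  rw [mem_image] at hz ⊢
  obtain ⟨a, ha, rfl⟩ := hz
  rw [Fintype.mem_piFinset] at ha
  refine ⟨fun i => a i + if i = j then 1 else 0, ?_, ?_⟩
  · rw [Fintype.mem_piFinset]
    intro i
    have := ha i
    rw [mem_range] at this ⊢
    split_ifs <;> omega
  · push_cast
    simp only [add_mul, sum_add_distrib, ite_mul, one_mul, zero_mul, sum_ite_eq', mem_univ, if_true]

/-- **There are many residues.** -/
theorem card_PP (g : J → ZMod B) (hg : ∃ c : J → ZMod B, ∑ j, c j * g j = 1) (h : ℕ) :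
    min B (h + 1) ≤ (PP g h).card := by
  have key : ∀ h, PP g (h + 1) = PP g h → PP g h = univ := by
    intro h he
    let St : AddSubmonoid (ZMod B) :=
      { carrier := {z | ∀ p ∈ PP g h, p + z ∈ PP g h}
        zero_mem' := fun p hp => by rwa [add_zero]
        add_mem' := fun {x y} hx hy p hp => by
          rw [← add_assoc]
          exact hy _ (hx p hp) }
    have h1 : ∀ j, g j ∈ St := fun j p hp => by
      have := PP_add g h hp j
      rwa [he] at this
    obtain ⟨c, hc⟩ := hg
    have h2 : (1 : ZMod B) ∈ St := by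
      rw [← hc]
      refine sum_mem fun j _ => ?_
      have h3 : c j * g j = (c j).val • g j := by
        rw [nsmul_eq_mul, ZMod.natCast_zmod_val]
      rw [h3]
      exact AddSubmonoid.nsmul_mem St (h1 j) _
    ext z
    simp only [mem_univ, iff_true]
    have h3 : z ∈ St := by
      have h4 : z = z.val • (1 : ZMod B) := by
        rw [nsmul_eq_mul, mul_one, ZMod.natCast_zmod_val]
      rw [h4]
      exact AddSubmonoid.nsmul_mem St h2 _
    have := h3 0 (zero_mem_PP g h)
    rwa [zero_add] at this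
  induction h with
  | zero =>
    have h1 : 1 ≤ (PP g 0).card := card_pos.2 ⟨0, zero_mem_PP g 0⟩
    exact (min_le_right _ _).trans h1
  | succ h ih =>
    by_cases he : PP g (h + 1) = PP g h
    · rw [he, key h he, card_univ, ZMod.card]
      exact min_le_left _ _
    · have h1 : PP g h ⊂ PP g (h + 1) := (PP_mono g h).ssubset_of_ne (Ne.symm he)
      have h2 := card_lt_card h1
      omega

end residues

section gen

variable {N : ℕ}

/-- the coordinates have no common prime divisor -/
def Prim (x : Fin (N + 1) → ℤ) : Prop := ∀ p : ℕ, p.Prime → ∃ j, ¬ (p : ℤ) ∣ x j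

lemma gen_one {x : Fin (N + 1) → ℤ} (hx : Prim x) (i₀ : Fin (N + 1)) (e : ℕ) :
    ∃ c : Fin (N + 1) → ℤ, ∑ j, c j * (if j = i₀ then x j else x j ^ e) = 1 := by
  set y : Fin (N + 1) → ℤ := fun j => if j = i₀ then x j else x j ^ e with hy
  suffices h : Ideal.span (Set.range y) = ⊤ by
    have h1 : (1 : ℤ) ∈ Ideal.span (Set.range y) := by
      rw [h]
      trivial
    exact Ideal.mem_span_range_iff_exists_fun.1 h1
  by_contra hne
  obtain ⟨I, hI, hle⟩ := Ideal.exists_le_maximal _ hne
  have hprime := hI.isPrime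
  have hmem : ∀ j, x j ∈ I := by
    intro j
    have h1 : y j ∈ I := hle (Ideal.subset_span ⟨j, rfl⟩)
    rw [hy] at h1
    simp only at h1
    split_ifs at h1 with h
    · exact h1
    · exact hprime.mem_of_pow_mem e h1
  have hprin : Submodule.IsPrincipal I := IsPrincipalIdealRing.principal I
  set g := Submodule.IsPrincipal.generator I with hg
  have hdvd : ∀ j, g ∣ x j := fun j => (Submodule.IsPrincipal.mem_iff_generator_dvd I).1 (hmem j)
  by_cases hbot : I = ⊥
  · have h0 : g = 0 := (Submodule.IsPrincipal.eq_bot_iff_generator_eq_zero I).1 hbot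
    obtain ⟨j, hj⟩ := hx 2 Nat.prime_two
    apply hj
    have h1 := hdvd j
    rw [h0, zero_dvd_iff] at h1
    rw [h1]
    exact dvd_zero _
  · have h1 : Prime g := Submodule.IsPrincipal.prime_generator_of_isPrime I hbot
    have h2 : g.natAbs.Prime := Int.prime_iff_natAbs_prime.1 h1
    obtain ⟨j, hj⟩ := hx g.natAbs h2
    exact hj ((Int.natAbs_dvd).2 (hdvd j))

end gen

section values

variable {N : ℕ}

/-- the values at `x` of the forms with coefficients at most `H` -/
def Vals (x : Fin (N + 1) → ℤ) (H d : ℕ) : Set ℤ :=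
  {w | ∃ f : MvPolynomial (Fin (N + 1)) ℤ, f.IsHomogeneous d ∧ (∀ e, |f.coeff e| ≤ (H : ℤ)) ∧
    eval x f = w}

/-- **There are many values.** -/
theorem many_values {x : Fin (N + 1) → ℤ} (hx : Prim x) (i₀ : Fin (N + 1)) {B : ℕ} [NeZero B]
    (hB : (x i₀).natAbs = B) (H d : ℕ) :
    ∃ U : Finset ℤ, (↑U : Set ℤ) ⊆ Vals x H d ∧ (2 * H + 1) * min B (H + 1) ^ d ≤ U.card := by
  classical
  have hx0 : x i₀ ≠ 0 := by
    intro h0
    rw [h0, Int.natAbs_zero] at hB
    exact NeZero.ne B hB.symm
  have hB0 : ((x i₀ : ℤ) : ZMod B) = 0 := by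
    rw [ZMod.intCast_zmod_eq_zero_iff_dvd, ← hB]
    exact Int.natAbs_dvd.2 dvd_rfl
  induction d with
  | zero =>
    refine ⟨Icc (-(H : ℤ)) H, ?_, ?_⟩
    · intro w hw
      rw [mem_coe, mem_Icc] at hw
      refine ⟨C w, isHomogeneous_C _ _, fun e => ?_, eval_C _⟩
      rw [coeff_C]
      split_ifs
      · exact abs_le.2 hw
      · simp
    · rw [pow_zero, mul_one, Int.card_Icc]
      omega
  | succ d ih =>
    obtain ⟨U, hU, hUc⟩ := ih
    -- the residues
    let J := {j : Fin (N + 1) // j ≠ i₀}
    let g : J → ZMod B := fun j => ((x j.1 ^ (d + 1) : ℤ) : ZMod B)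
    have hg : ∃ c : J → ZMod B, ∑ j, c j * g j = 1 := by
      obtain ⟨c, hc⟩ := gen_one hx i₀ (d + 1)
      refine ⟨fun j => (c j.1 : ZMod B), ?_⟩
      have h1 := congrArg (fun z : ℤ => (z : ZMod B)) hc
      simp only [Int.cast_sum, Int.cast_mul, Int.cast_one] at h1
      rw [← add_sum_erase univ _ (mem_univ i₀), if_pos rfl, hB0, mul_zero, zero_add] at h1
      rw [← h1]
      refine (sum_bij (fun j _ => j.1) (fun j _ => ?_) (fun j _ j' _ h => Subtype.ext h)
        (fun b hb => ⟨⟨b, ne_of_mem_erase hb⟩, mem_univ _, rfl⟩) (fun j _ => ?_))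
      · exact mem_erase.2 ⟨j.2, mem_univ _⟩
      · rw [if_neg j.2]
    have hP := card_PP g hg H
    -- a form for every residue
    have hρ : ∀ ρ ∈ PP g H, ∃ a : J → ℕ, (∀ j, a j ≤ H) ∧ ∑ j, (a j : ZMod B) * g j = ρ := by
      intro ρ hρ
      unfold PP at hρ
      rw [mem_image] at hρ
      obtain ⟨a, ha, rfl⟩ := hρ
      rw [Fintype.mem_piFinset] at ha
      refine ⟨a, fun j => ?_, rfl⟩
      have := ha j
      rw [mem_range] at this
      omega
    choose! a ha1 ha2 using hρ
    let hv : ZMod B → ℤ := fun ρ => ∑ j : J, (a ρ j : ℤ) * x j.1 ^ (d + 1)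
    have hhv : ∀ ρ ∈ PP g H, ((hv ρ : ℤ) : ZMod B) = ρ := by
      intro ρ hρ
      conv_rhs => rw [← ha2 ρ hρ]
      show ((∑ j : J, (a ρ j : ℤ) * x j.1 ^ (d + 1) : ℤ) : ZMod B) = _
      rw [Int.cast_sum]
      refine sum_congr rfl fun j _ => ?_
      rw [Int.cast_mul, Int.cast_natCast]
    let φ : ZMod B × ℤ → ℤ := fun z => hv z.1 + x i₀ * z.2
    have hinj : Set.InjOn φ ↑(PP g H ×ˢ U) := by
      rintro ⟨ρ, u⟩ h1 ⟨ρ', u'⟩ h2 h
      rw [mem_coe, mem_product] at h1 h2
      have h3 : hv ρ + x i₀ * u = hv ρ' + x i₀ * u' := h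
      have h4 : ρ = ρ' := by
        have h5 := congrArg (fun z : ℤ => (z : ZMod B)) h3
        simp only [Int.cast_add, Int.cast_mul, hB0, zero_mul, add_zero] at h5
        rwa [hhv ρ h1.1, hhv ρ' h2.1] at h5
      subst h4
      have h5 : x i₀ * u = x i₀ * u' := add_left_cancel h3
      rw [mul_left_cancel₀ hx0 h5]
    refine ⟨(PP g H ×ˢ U).image φ, ?_, ?_⟩
    · intro w hw
      rw [mem_coe, mem_image] at hw
      obtain ⟨⟨ρ, u⟩, hz, rfl⟩ := hw
      rw [mem_product] at hz
      obtain ⟨f, hf1, hf2, hf3⟩ := hU (mem_coe.2 hz.2)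
      refine ⟨∑ j : J, C (a ρ j : ℤ) * X j.1 ^ (d + 1) + X i₀ * f, ?_, ?_, ?_⟩
      · refine IsHomogeneous.add ?_ ?_
        · refine IsHomogeneous.sum _ _ _ fun j _ => ?_
          have h1 := (isHomogeneous_C (Fin (N + 1)) (a ρ j : ℤ)).mul
            (isHomogeneous_X_pow (R := ℤ) j.1 (d + 1))
          rwa [zero_add] at h1
        · have h1 := (isHomogeneous_X ℤ i₀).mul hf1
          rwa [add_comm 1 d] at h1
      · intro e
        rw [coeff_add, coeff_sum, coeff_X_mul']
        by_cases he : i₀ ∈ e.support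
        · rw [if_pos he]
          have h1 : ∀ j ∈ (univ : Finset J), coeff e (C (a ρ j : ℤ) * X j.1 ^ (d + 1)) = 0 := by
            intro j _
            rw [coeff_C_mul, coeff_X_pow, if_neg, mul_zero]
            intro h2
            rw [← h2, Finsupp.mem_support_iff, Finsupp.single_apply, if_neg j.2] at he
            exact he rfl
          rw [sum_congr rfl h1, sum_const_zero, zero_add]
          exact hf2 _
        · rw [if_neg he, add_zero]
          by_cases hex : ∃ j : J, Finsupp.single j.1 (d + 1) = e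
          · obtain ⟨j, hj⟩ := hex
            rw [sum_eq_single j]
            · rw [coeff_C_mul, coeff_X_pow, if_pos hj, mul_one, abs_of_nonneg (Int.natCast_nonneg _)]
              exact_mod_cast ha1 ρ hz.1 j
            · intro j' _ hjj
              rw [coeff_C_mul, coeff_X_pow, if_neg, mul_zero]
              intro h2
              apply hjj
              apply Subtype.ext
              rw [← hj] at h2
              exact Finsupp.single_left_injective (by omega) h2
            · intro h2
              exact absurd (mem_univ _) h2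
          · push Not at hex
            have h1 : ∀ j ∈ (univ : Finset J), coeff e (C (a ρ j : ℤ) * X j.1 ^ (d + 1)) = 0 := by
              intro j _
              rw [coeff_C_mul, coeff_X_pow, if_neg (hex j), mul_zero]
            rw [sum_congr rfl h1, sum_const_zero, abs_zero]
            exact Int.natCast_nonneg _
      · rw [map_add, map_sum, map_mul, eval_X, hf3]
        show _ = hv ρ + x i₀ * u
        congr 1
        refine sum_congr rfl fun j _ => ?_
        rw [map_mul, eval_C, map_pow, eval_X]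
    · rw [card_image_of_injOn hinj, card_product, pow_succ]
      calc (2 * H + 1) * (min B (H + 1) ^ d * min B (H + 1)) =
          min B (H + 1) * ((2 * H + 1) * min B (H + 1) ^ d) := by ring
        _ ≤ _ := Nat.mul_le_mul hP hUc

end values

section box

variable {N d : ℕ}

/-- the value at `x` of the form with the coefficients `t` -/
def val (t : Monomials N d → ℤ) (x : Fin (N + 1) → ℤ) : ℤ := ∑ α, t α * ∏ i, x i ^ (α.1 i : ℕ)

/-- the forms with coefficients at most `H` -/
noncomputable def Box (N d H : ℕ) : Finset (Monomials N d → ℤ) := Fintype.piFinset fun _ => Icc (-(H : ℤ)) H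

lemma mem_Box {H : ℕ} {t : Monomials N d → ℤ} : t ∈ Box N d H ↔ ∀ α, |t α| ≤ (H : ℤ) := by
  unfold Box
  rw [Fintype.mem_piFinset]
  refine forall_congr' fun α => ?_
  rw [mem_Icc, abs_le]

lemma card_Box (H : ℕ) : (Box N d H).card = (2 * H + 1) ^ Fintype.card (Monomials N d) := by
  unfold Box
  rw [Fintype.card_piFinset, prod_const, card_univ, Int.card_Icc]
  congr 1
  omega

/-- the exponent -/
noncomputable def ex (α : Monomials N d) : Fin (N + 1) →₀ ℕ :=
  Finsupp.equivFunOnFinite.symm fun i => (α.1 i : ℕ)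

lemma ex_apply (α : Monomials N d) (i : Fin (N + 1)) : ex α i = (α.1 i : ℕ) := rfl

lemma ex_inj : Function.Injective (ex (N := N) (d := d)) := by
  intro α α' h
  apply Subtype.ext
  funext i
  apply Fin.ext
  have := DFunLike.congr_fun h i
  exact this

/-- from polynomials to coefficients -/
lemma exists_coeff {f : MvPolynomial (Fin (N + 1)) ℤ} (hf : f.IsHomogeneous d) (x : Fin (N + 1) → ℤ) :
    val (fun α : Monomials N d => f.coeff (ex α)) x = eval x f := by
  classical
  unfold val
  rw [eval_eq']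
  have h1 : ∑ α : Monomials N d, f.coeff (ex α) * ∏ i, x i ^ (α.1 i : ℕ) =
      ∑ e ∈ (univ : Finset (Monomials N d)).image ex, f.coeff e * ∏ i, x i ^ e i := by
    rw [sum_image fun α _ α' _ h => ex_inj h]
    rfl
  rw [h1]
  symm
  refine sum_subset ?_ ?_
  · intro e he
    rw [mem_image]
    have hdeg : ∑ i, e i = d := by
      have h2 : e.degree = d := by
        by_contra h
        exact mem_support_iff.1 he (hf.coeff_eq_zero h)
      rw [← h2, Finsupp.degree_eq_sum]
    have hle : ∀ i, e i < d + 1 := by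
      intro i
      have h3 : e i ≤ ∑ i, e i := single_le_sum (fun _ _ => Nat.zero_le _) (mem_univ i)
      omega
    refine ⟨⟨fun i => ⟨e i, hle i⟩, hdeg⟩, mem_univ _, ?_⟩
    ext i
    rfl
  · intro e _ he
    rw [notMem_support_iff.1 he, zero_mul]

open Classical in
/-- **Few forms have a given value.** -/
theorem few_forms {x : Fin (N + 1) → ℤ} (hx : Prim x) (i₀ : Fin (N + 1)) {B : ℕ} [NeZero B]
    (hB : (x i₀).natAbs = B) (H : ℕ) (v : ℤ) :
    ((Box N d H).filter fun t => val t x = v).card * ((2 * H + 1) * min B (H + 1) ^ d) ≤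
      (2 * (2 * H) + 1) ^ Fintype.card (Monomials N d) := by
  obtain ⟨U, hU, hUc⟩ := many_values hx i₀ hB H d
  refine (Nat.mul_le_mul_left _ hUc).trans ?_
  have h1 : ∀ w ∈ U, ∃ t : Monomials N d → ℤ, (∀ α, |t α| ≤ (H : ℤ)) ∧ val t x = w := by
    intro w hw
    obtain ⟨f, hf1, hf2, hf3⟩ := hU (mem_coe.2 hw)
    exact ⟨fun α => f.coeff (ex α), fun α => hf2 _, by rw [exists_coeff hf1, hf3]⟩
  choose! s hs1 hs2 using h1
  have hadd : ∀ t t' : Monomials N d → ℤ, val (fun α => t α + t' α) x = val t x + val t' x := by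
    intro t t'
    unfold val
    rw [← sum_add_distrib]
    refine sum_congr rfl fun α _ => ?_
    rw [add_mul]
  rw [← card_product, ← card_Box]
  refine card_le_card_of_injOn (fun z : (Monomials N d → ℤ) × ℤ => fun α => z.1 α + s z.2 α) ?_ ?_
  · rintro ⟨t, w⟩ hz
    rw [mem_coe, mem_product, mem_filter, mem_Box] at hz
    rw [mem_coe, mem_Box]
    intro α
    push_cast
    calc |t α + s w α| ≤ |t α| + |s w α| := abs_add_le _ _
      _ ≤ H + H := add_le_add (hz.1.1 α) (hs1 w hz.2 α)
      _ = 2 * H := by ring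
  · rintro ⟨t, w⟩ hz ⟨t', w'⟩ hz' h
    rw [mem_coe, mem_product, mem_filter] at hz hz'
    have h2 : (fun α => t α + s w α) = fun α => t' α + s w' α := h
    have h3 := congrArg (fun u => val u x) h2
    simp only [hadd] at h3
    rw [hz.1.2, hz'.1.2, hs2 w hz.2, hs2 w' hz'.2] at h3
    have h4 : w = w' := add_left_cancel h3
    subst h4
    have h5 : t = t' := by
      funext α
      exact add_right_cancel (congrFun h2 α)
    rw [h5]

end box

end Pool.Agent.L0h11.RP
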