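import Mathlib
import Pool.Agent.L0h11.P.Fl
import Pool.Agent.L0h11.P.Vl

/-!
# The number of the forms with a full value at a point, and the sum over the points
-/

set_option autoImplicit false
set_option linter.all false

namespace Pool.Agent.L0h11.RP

open Finset
open Pool.Agent.L0h11 (Monomials)

/-- the real number `1 / m`, with `1 / ∞ = 0` -/
noncomputable def rc (m : ℕ∞) : ℝ := ((m.toNat : ℕ) : ℝ)⁻¹

lemma rc_nonneg (m : ℕ∞) : 0 ≤ rc m := by
  unfold rc
  positivity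

lemma rc_le {m : ℕ∞} (hm : 2 ≤ m) : rc m ≤ 1 / 2 := by
  unfold rc
  induction m using ENat.recTopCoe with
  | top => simp
  | coe n =>
    rw [ENat.toNat_coe]
    have h2 : 2 ≤ n := by exact_mod_cast hm
    have h3 : (2 : ℝ) ≤ n := by exact_mod_cast h2
    rw [inv_eq_one_div]
    exact one_div_le_one_div_of_le (by norm_num) h3

/-- **The number of the integers that are full outside a small set of primes.** -/
theorem good_le' {m : ℕ∞} (hm : 2 ≤ m) {ε : ℝ} (hε : 0 < ε) : ∃ C : ℝ, 0 < C ∧ ∀ V Q : ℕ, 1 ≤ V → 1 ≤ Q →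
    (by classical exact (((Icc (-(V : ℤ)) V).filter (Good m Q)).card : ℝ)) ≤
      C * (V : ℝ) ^ (rc m + ε) * (Q : ℝ) ^ (1 - rc m + ε) := by
  classical
  induction m using ENat.recTopCoe with
  | coe n =>
    have h2 : 1 ≤ n := by
      have : 2 ≤ n := by exact_mod_cast hm
      omega
    obtain ⟨C, hC, h⟩ := good_le h2 hε
    refine ⟨C, hC, fun V Q hV hQ => ?_⟩
    have h3 := h V Q hV hQ
    unfold rc
    rw [ENat.toNat_coe, inv_eq_one_div]
    exact h3
  | top =>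
    obtain ⟨M, hM⟩ := exists_nat_gt (2 / ε)
    have hM0 : (0 : ℝ) < M := lt_trans (by positivity) hM
    have hM1 : 1 ≤ M := by
      have : 0 < M := by exact_mod_cast hM0
      omega
    have hMe : 1 / (M : ℝ) ≤ ε / 2 := by
      rw [div_le_div_iff₀ hM0 (by norm_num)]
      rw [div_lt_iff₀ hε] at hM
      linarith
    obtain ⟨C, hC, h⟩ := good_le hM1 (ε := ε / 2) (by positivity)
    refine ⟨C, hC, fun V Q hV hQ => ?_⟩
    have h3 := h V Q hV hQ
    have hV1 : (1 : ℝ) ≤ V := by exact_mod_cast hV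
    have hQ1 : (1 : ℝ) ≤ Q := by exact_mod_cast hQ
    have hsub : (Icc (-(V : ℤ)) V).filter (Good ⊤ Q) ⊆ (Icc (-(V : ℤ)) V).filter (Good (M : ℕ∞) Q) := by
      intro v hv
      rw [mem_filter] at hv ⊢
      obtain ⟨h0, S, hS, hSQ, h1⟩ := hv
      exact ⟨h0, S, hS, hSQ, fun p hp hpS hpv k _ => h1 p hp hpS hpv k le_top⟩
    have h4 : (((Icc (-(V : ℤ)) V).filter (Good ⊤ Q)).card : ℝ) ≤
        (((Icc (-(V : ℤ)) V).filter (Good (M : ℕ∞) Q)).card : ℝ) := by
      exact_mod_cast card_le_card hsub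
    refine h4.trans (h3.trans ?_)
    unfold rc
    rw [ENat.toNat_top, Nat.cast_zero, inv_zero]
    have h5 : (V : ℝ) ^ (1 / (M : ℝ) + ε / 2) ≤ (V : ℝ) ^ (0 + ε) :=
      Real.rpow_le_rpow_of_exponent_le hV1 (by linarith)
    have h6 : (Q : ℝ) ^ (1 - 1 / (M : ℝ) + ε / 2) ≤ (Q : ℝ) ^ (1 - 0 + ε) :=
      Real.rpow_le_rpow_of_exponent_le hQ1 (by
        have : 0 < 1 / (M : ℝ) := by positivity
        linarith)
    exact mul_le_mul (mul_le_mul_of_nonneg_left h5 hC.le) h6 (by positivity) (by positivity)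

section single

variable {N d : ℕ}

lemma val_le {H B : ℕ} {t : Monomials N d → ℤ} (ht : t ∈ Box N d H) {x : Fin (N + 1) → ℤ}
    (hx : ∀ j, |x j| ≤ (B : ℤ)) :
    |val t x| ≤ (((Fintype.card (Monomials N d) + 1) * H * B ^ d : ℕ) : ℤ) := by
  unfold val
  refine (abs_sum_le_sum_abs _ _).trans ?_
  have h1 : ∀ α ∈ (univ : Finset (Monomials N d)), |t α * ∏ i, x i ^ (α.1 i : ℕ)| ≤ (H * B ^ d : ℤ) := by
    intro α _
    rw [abs_mul, abs_prod]
    refine mul_le_mul (mem_Box.1 ht α) ?_ (prod_nonneg fun _ _ => abs_nonneg _) (Int.natCast_nonneg _)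
    calc ∏ i, |x i ^ (α.1 i : ℕ)| ≤ ∏ i, (B : ℤ) ^ (α.1 i : ℕ) := by
          refine prod_le_prod (fun _ _ => abs_nonneg _) fun i _ => ?_
          rw [abs_pow]
          exact pow_le_pow_left₀ (abs_nonneg _) (hx i) _
      _ = (B : ℤ) ^ d := by rw [prod_pow_eq_pow_sum, α.2]
  refine (sum_le_card_nsmul _ _ _ h1).trans ?_
  rw [card_univ, nsmul_eq_mul]
  push_cast
  have h2 : (0 : ℤ) ≤ H * B ^ d := by positivity
  nlinarith

open Classical in
/-- **The number of the forms with a full value at a point.** -/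
theorem single {m : ℕ∞} (hm : 2 ≤ m) (N d : ℕ) {ε : ℝ} (hε : 0 < ε) : ∃ C : ℝ, 0 < C ∧
    ∀ H Q B : ℕ, 1 ≤ H → 1 ≤ Q → 1 ≤ B → ∀ x : Fin (N + 1) → ℤ, Prim x → ∀ i₀, (x i₀).natAbs = B →
      (∀ j, |x j| ≤ (B : ℤ)) →
      (((Box N d H).filter fun t => Good m Q (val t x)).card : ℝ) ≤
        C * ((2 * H + 1 : ℕ) : ℝ) ^ Fintype.card (Monomials N d) *
          ((H : ℝ) ^ (rc m + ε - 1) * (B : ℝ) ^ (d * (rc m + ε)) *
            (min (B : ℝ) H) ^ (-(d : ℝ)) * (Q : ℝ) ^ (1 - rc m + ε)) := by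
  obtain ⟨C, hC, hgood⟩ := good_le' hm hε
  set n : ℕ := Fintype.card (Monomials N d) with hn
  have hrc := rc_nonneg m
  refine ⟨C * ((n : ℝ) + 1) ^ (rc m + ε) * 2 ^ n, by positivity, ?_⟩
  intro H Q B hH hQ hB x hx i₀ hi₀ hxB
  have : NeZero B := ⟨by omega⟩
  have hH1 : (1 : ℝ) ≤ H := by exact_mod_cast hH
  have hB1 : (1 : ℝ) ≤ B := by exact_mod_cast hB
  have hQ1 : (1 : ℝ) ≤ Q := by exact_mod_cast hQ
  set V : ℕ := (n + 1) * H * B ^ d with hV
  have hV1 : 1 ≤ V := by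
    rw [hV]
    exact Nat.mul_pos (Nat.mul_pos (by omega) hH) (pow_pos hB d)
  set G := (Icc (-(V : ℤ)) V).filter (Good m Q) with hG
  -- every fibre is small
  set F : ℝ := 2 ^ n * ((2 * H + 1 : ℕ) : ℝ) ^ n * ((H : ℝ)⁻¹ * (min (B : ℝ) H) ^ (-(d : ℝ))) with hF
  have hmin : 0 < min (B : ℝ) H := lt_min (by linarith) (by linarith)
  have hF0 : 0 ≤ F := by positivity
  have hfib : ∀ v : ℤ, (((Box N d H).filter fun t => val t x = v).card : ℝ) ≤ F := by
    intro v
    have h1 := few_forms (d := d) hx i₀ hi₀ H v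
    have h2 : (((Box N d H).filter fun t => val t x = v).card : ℝ) *
        ((H : ℝ) * (min (B : ℝ) H) ^ d) ≤ 2 ^ n * ((2 * H + 1 : ℕ) : ℝ) ^ n := by
      have h3 : (((Box N d H).filter fun t => val t x = v).card : ℝ) *
          (((2 * H + 1) * min B (H + 1) ^ d : ℕ) : ℝ) ≤
          (((2 * (2 * H) + 1) ^ n : ℕ) : ℝ) := by exact_mod_cast h1
      have h4 : (H : ℝ) * (min (B : ℝ) H) ^ d ≤ (((2 * H + 1) * min B (H + 1) ^ d : ℕ) : ℝ) := by
        push_cast
        refine mul_le_mul (by linarith) ?_ (by positivity) (by positivity)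
        refine pow_le_pow_left₀ hmin.le ?_ d
        exact le_min (min_le_left _ _) ((min_le_right _ _).trans (by linarith))
      have h5 : (((2 * (2 * H) + 1) ^ n : ℕ) : ℝ) ≤ 2 ^ n * ((2 * H + 1 : ℕ) : ℝ) ^ n := by
        rw [← mul_pow]
        push_cast
        exact pow_le_pow_left₀ (by positivity) (by linarith) n
      exact (mul_le_mul_of_nonneg_left h4 (Nat.cast_nonneg _)).trans (h3.trans h5)
    have hpos : 0 < (H : ℝ) * (min (B : ℝ) H) ^ d := by positivity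
    have h6 : F = (2 ^ n * ((2 * H + 1 : ℕ) : ℝ) ^ n) / ((H : ℝ) * (min (B : ℝ) H) ^ d) := by
      rw [hF, Real.rpow_neg hmin.le, Real.rpow_natCast, ← mul_inv, div_eq_mul_inv]
    rw [h6, le_div_iff₀ hpos]
    exact h2
  have hcount : (((Box N d H).filter fun t => Good m Q (val t x)).card : ℝ) ≤ (G.card : ℝ) * F := by
    have h1 : ((Box N d H).filter fun t => Good m Q (val t x)) ⊆
        G.biUnion fun v => (Box N d H).filter fun t => val t x = v := by
      intro t ht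
      rw [mem_filter] at ht
      rw [mem_biUnion]
      refine ⟨val t x, ?_, mem_filter.2 ⟨ht.1, rfl⟩⟩
      rw [hG, mem_filter, mem_Icc]
      exact ⟨abs_le.1 (val_le ht.1 hxB), ht.2⟩
    have h2 := (card_le_card h1).trans card_biUnion_le
    have h3 : ((∑ v ∈ G, ((Box N d H).filter fun t => val t x = v).card : ℕ) : ℝ) ≤ ∑ v ∈ G, F := by
      push_cast
      exact sum_le_sum fun v _ => hfib v
    rw [sum_const, nsmul_eq_mul] at h3
    exact le_trans (by exact_mod_cast h2) h3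
  refine hcount.trans ?_
  have hGc := hgood V Q hV1 hQ
  have hVr : (V : ℝ) = ((n : ℝ) + 1) * H * (B : ℝ) ^ d := by
    rw [hV]
    push_cast
    ring
  have hVp : (V : ℝ) ^ (rc m + ε) = ((n : ℝ) + 1) ^ (rc m + ε) * (H : ℝ) ^ (rc m + ε) *
      (B : ℝ) ^ (d * (rc m + ε)) := by
    rw [hVr, Real.mul_rpow (by positivity) (by positivity), Real.mul_rpow (by positivity) (by positivity),
      Real.rpow_mul (by positivity) (d : ℝ), Real.rpow_natCast]
  calc (G.card : ℝ) * F ≤ (C * (V : ℝ) ^ (rc m + ε) * (Q : ℝ) ^ (1 - rc m + ε)) * F :=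
        mul_le_mul_of_nonneg_right hGc hF0
    _ = _ := by
        rw [hVp, hF]
        have e1 : (H : ℝ) ^ (rc m + ε - 1) = (H : ℝ) ^ (rc m + ε) * (H : ℝ)⁻¹ := by
          rw [Real.rpow_sub (by linarith), Real.rpow_one, div_eq_mul_inv]
        rw [e1]
        ring

end single

section dyadic

/-- **The sum over the points.** -/
theorem dyadic {X : Type} (P : Finset X) (h : X → ℕ) (hh : ∀ x ∈ P, 1 ≤ h x) {K β : ℝ} (hβ : 0 ≤ β)
    (hK : ∀ L : ℕ, 1 ≤ L → ((P.filter fun x => h x ≤ L).card : ℝ) ≤ K * (L : ℝ) ^ β) {L : ℕ}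
    (hL : ∀ x ∈ P, h x ≤ L) :
    ∑ x ∈ P, (h x : ℝ) ^ (-β) ≤ K * 2 ^ β * (Nat.log 2 L + 1) := by
  classical
  have h1 : ∀ x ∈ P, Nat.log 2 (h x) ∈ range (Nat.log 2 L + 1) := by
    intro x hx
    rw [mem_range]
    exact Nat.lt_succ_of_le (Nat.log_mono_right (hL x hx))
  rw [← sum_fiberwise_of_maps_to h1]
  have h2 : ∀ j ∈ range (Nat.log 2 L + 1), ∑ x ∈ P with Nat.log 2 (h x) = j, (h x : ℝ) ^ (-β) ≤
      K * 2 ^ β := by
    intro j _
    have h3 : ∀ x ∈ P.filter (fun x => Nat.log 2 (h x) = j), (h x : ℝ) ^ (-β) ≤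
        ((2 : ℝ) ^ j) ^ (-β) := by
      intro x hx
      rw [mem_filter] at hx
      have h4 : 2 ^ j ≤ h x := by
        rw [← hx.2]
        exact Nat.pow_log_le_self 2 (by have := hh x hx.1; omega)
      have h5 : ((2 : ℝ) ^ j) ≤ h x := by exact_mod_cast h4
      exact Real.rpow_le_rpow_of_nonpos (by positivity) h5 (by linarith)
    refine (sum_le_card_nsmul _ _ _ h3).trans ?_
    rw [nsmul_eq_mul]
    have h6 : ((P.filter fun x => Nat.log 2 (h x) = j).card : ℝ) ≤ K * ((2 ^ (j + 1) : ℕ) : ℝ) ^ β := by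
      refine le_trans ?_ (hK (2 ^ (j + 1)) Nat.one_le_two_pow)
      refine Nat.cast_le.2 (card_le_card ?_)
      intro x hx
      rw [mem_filter] at hx ⊢
      refine ⟨hx.1, ?_⟩
      rw [← hx.2]
      exact (Nat.lt_pow_succ_log_self (by norm_num) _).le
    calc _ ≤ (K * ((2 ^ (j + 1) : ℕ) : ℝ) ^ β) * ((2 : ℝ) ^ j) ^ (-β) :=
          mul_le_mul_of_nonneg_right h6 (by positivity)
      _ = K * 2 ^ β := by
          push_cast
          rw [pow_succ, Real.mul_rpow (by positivity) (by positivity), Real.rpow_neg (by positivity)]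
          have : ((2 : ℝ) ^ j) ^ β ≠ 0 := by positivity
          field_simp
  refine (sum_le_sum h2).trans ?_
  rw [sum_const, card_range, nsmul_eq_mul]
  push_cast
  linarith

end dyadic

end Pool.Agent.L0h11.RP
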