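import Mathlib
import Pool.Agent.L0h11.P.Sm

/-!
# The number of the exceptional tuples
-/

set_option autoImplicit false
set_option linter.all false

namespace Pool.Agent.L0h11.RP

open Finset
open Pool.Agent.L0h11 (Monomials)

section exponents

variable {r : ℕ} (d : Fin r → ℕ) (m : Fin r → ℕ∞)

/-- the exponents -/
theorem pointwise (hm : ∀ i, 2 ≤ m i) {β κ θ δ ε : ℝ} (hβ : 0 ≤ β) (hκ0 : 0 ≤ κ) (hκ1 : κ < 1) (hθ : 1 ≤ θ)
    (hδ0 : 0 < δ) (hε0 : 0 < ε) (hε : ε * (2 * r + θ * ∑ i, (d i : ℝ)) ≤ δ)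
    (h1 : 2 * δ ≤ (1 - κ) * ∑ i, (1 - rc (m i)))
    (h2 : 2 * δ ≤ ∑ i, ((d i : ℝ) + 1) - θ * (β + ∑ i, d i * rc (m i)) -
      ∑ i, (rc (m i) + κ * (1 - rc (m i))))
    {H Q B : ℕ} (hH : 1 ≤ H) (hQ : 1 ≤ Q) (hQH : (Q : ℝ) ≤ (H : ℝ) ^ κ) (hB : 1 ≤ B)
    (hBH : (B : ℝ) ≤ (H : ℝ) ^ θ) :
    ∏ i, ((H : ℝ) ^ (rc (m i) + ε - 1) * (B : ℝ) ^ (d i * (rc (m i) + ε)) *
      (min (B : ℝ) H) ^ (-(d i : ℝ)) * (Q : ℝ) ^ (1 - rc (m i) + ε)) ≤
      (H : ℝ) ^ (-δ) * (B : ℝ) ^ (-β) := by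
  have hH1 : (1 : ℝ) ≤ H := by exact_mod_cast hH
  have hB1 : (1 : ℝ) ≤ B := by exact_mod_cast hB
  have hQ1 : (1 : ℝ) ≤ Q := by exact_mod_cast hQ
  have hH0 : (0 : ℝ) < H := by linarith
  have hB0 : (0 : ℝ) < B := by linarith
  set M : ℝ := min (B : ℝ) H with hM
  have hM0 : 0 < M := lt_min hB0 hH0
  have hrc : ∀ i, rc (m i) ≤ 1 / 2 := fun i => rc_le (hm i)
  have hrc0 : ∀ i, 0 ≤ rc (m i) := fun i => rc_nonneg _
  set a : Fin r → ℝ := fun i => rc (m i) + ε - 1 + κ * (1 - rc (m i) + ε) with ha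
  set b : Fin r → ℝ := fun i => d i * (rc (m i) + ε) with hb
  have hstep : ∏ i, ((H : ℝ) ^ (rc (m i) + ε - 1) * (B : ℝ) ^ (d i * (rc (m i) + ε)) *
      M ^ (-(d i : ℝ)) * (Q : ℝ) ^ (1 - rc (m i) + ε)) ≤
      (H : ℝ) ^ (∑ i, a i) * (B : ℝ) ^ (∑ i, b i) * M ^ (∑ i, -(d i : ℝ)) := by
    rw [Real.rpow_sum_of_pos hH0, Real.rpow_sum_of_pos hB0, Real.rpow_sum_of_pos hM0,
      ← prod_mul_distrib, ← prod_mul_distrib]
    refine prod_le_prod (fun i _ => by positivity) fun i _ => ?_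
    have h3 : (Q : ℝ) ^ (1 - rc (m i) + ε) ≤ (H : ℝ) ^ (κ * (1 - rc (m i) + ε)) := by
      rw [Real.rpow_mul hH0.le]
      refine Real.rpow_le_rpow (by positivity) hQH ?_
      have := hrc i
      linarith
    have e1 : (H : ℝ) ^ (a i) = (H : ℝ) ^ (rc (m i) + ε - 1) * (H : ℝ) ^ (κ * (1 - rc (m i) + ε)) := by
      rw [← Real.rpow_add hH0]
    rw [e1]
    calc _ ≤ (H : ℝ) ^ (rc (m i) + ε - 1) * (B : ℝ) ^ (d i * (rc (m i) + ε)) *
        M ^ (-(d i : ℝ)) * (H : ℝ) ^ (κ * (1 - rc (m i) + ε)) :=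
          mul_le_mul_of_nonneg_left h3 (by positivity)
      _ = _ := by ring
  refine hstep.trans ?_
  set D : ℝ := ∑ i, (d i : ℝ) with hD
  have hD0 : 0 ≤ D := sum_nonneg fun i _ => Nat.cast_nonneg _
  have hneg : ∑ i, -(d i : ℝ) = -D := by rw [sum_neg_distrib]
  set R : ℝ := ∑ i, rc (m i) with hR
  set DR : ℝ := ∑ i, d i * rc (m i) with hDR
  have hDR0 : 0 ≤ DR := sum_nonneg fun i _ => mul_nonneg (Nat.cast_nonneg _) (hrc0 i)
  have sa : ∑ i, a i = -((1 - κ) * (r - R)) + r * ε * (1 + κ) := by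
    have : ∀ i, a i = (1 - κ) * rc (m i) + (ε - 1 + κ * (1 + ε)) := fun i => by
      rw [ha]
      ring
    rw [sum_congr rfl fun i _ => this i, sum_add_distrib, ← mul_sum, sum_const, card_univ,
      Fintype.card_fin, nsmul_eq_mul]
    ring
  have sb : ∑ i, b i = DR + ε * D := by
    have : ∀ i, b i = d i * rc (m i) + ε * d i := fun i => by
      rw [hb]
      ring
    rw [sum_congr rfl fun i _ => this i, sum_add_distrib, ← mul_sum]
  have s1 : ∑ i, (1 - rc (m i)) = r - R := by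
    rw [sum_sub_distrib, sum_const, card_univ, Fintype.card_fin, nsmul_eq_mul, mul_one]
  have s2 : ∑ i, ((d i : ℝ) + 1) = D + r := by
    rw [sum_add_distrib, sum_const, card_univ, Fintype.card_fin, nsmul_eq_mul, mul_one]
  have s3 : ∑ i, (rc (m i) + κ * (1 - rc (m i))) = R + κ * (r - R) := by
    rw [sum_add_distrib, ← mul_sum, s1]
  rw [s1] at h1
  rw [s2, s3] at h2
  rw [sa, sb, hneg]
  have hr0 : (0 : ℝ) ≤ r := Nat.cast_nonneg _
  have hθD : D ≤ θ * D := le_mul_of_one_le_left hD0 hθ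
  have hε1 : ε * (2 * r) + ε * (θ * D) ≤ δ := by
    rw [← mul_add]
    exact hε
  have hε2 : r * ε * (1 + κ) ≤ ε * (2 * r) := by nlinarith [mul_nonneg hr0 hε0.le]
  have hε3 : 0 ≤ ε * (θ * D) := by positivity
  have hε4 : ε * D ≤ ε * (θ * D) := mul_le_mul_of_nonneg_left hθD hε0.le
  have hε5 : 0 ≤ ε * (2 * r) := by positivity
  rw [Real.rpow_neg hB0.le β, ← div_eq_mul_inv, le_div_iff₀ (by positivity)]
  rcases le_total (B : ℝ) H with hBH' | hBH'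
  · have hMB : M = B := min_eq_left hBH'
    rw [hMB]
    have e1 : (H : ℝ) ^ (-((1 - κ) * (r - R)) + r * ε * (1 + κ)) * (B : ℝ) ^ (DR + ε * D) *
        (B : ℝ) ^ (-D) * (B : ℝ) ^ β = (H : ℝ) ^ (-((1 - κ) * (r - R)) + r * ε * (1 + κ)) *
        (B : ℝ) ^ (DR + ε * D - D + β) := by
      rw [mul_assoc, mul_assoc, ← Real.rpow_add hB0, ← Real.rpow_add hB0]
      congr 2
      ring
    rw [e1]
    rcases le_total (DR + ε * D - D + β) 0 with h3 | h3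
    · have h4 : (B : ℝ) ^ (DR + ε * D - D + β) ≤ 1 := Real.rpow_le_one_of_one_le_of_nonpos hB1 h3
      calc _ ≤ (H : ℝ) ^ (-((1 - κ) * (r - R)) + r * ε * (1 + κ)) * 1 :=
            mul_le_mul_of_nonneg_left h4 (by positivity)
        _ ≤ _ := by
            rw [mul_one]
            exact Real.rpow_le_rpow_of_exponent_le hH1 (by linarith)
    · have h4 : (B : ℝ) ^ (DR + ε * D - D + β) ≤ (H : ℝ) ^ (DR + ε * D - D + β) :=
        Real.rpow_le_rpow hB0.le hBH' h3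
      calc _ ≤ (H : ℝ) ^ (-((1 - κ) * (r - R)) + r * ε * (1 + κ)) * (H : ℝ) ^ (DR + ε * D - D + β) :=
            mul_le_mul_of_nonneg_left h4 (by positivity)
        _ ≤ _ := by
            rw [← Real.rpow_add hH0]
            refine Real.rpow_le_rpow_of_exponent_le hH1 ?_
            have h5 : β + DR ≤ θ * (β + DR) := le_mul_of_one_le_left (by linarith) hθ
            linarith
  · have hMH : M = H := min_eq_right hBH'
    rw [hMH]
    have e1 : (H : ℝ) ^ (-((1 - κ) * (r - R)) + r * ε * (1 + κ)) * (B : ℝ) ^ (DR + ε * D) *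
        (H : ℝ) ^ (-D) * (B : ℝ) ^ β = (H : ℝ) ^ (-((1 - κ) * (r - R)) + r * ε * (1 + κ) - D) *
        (B : ℝ) ^ (DR + ε * D + β) := by
      rw [Real.rpow_sub hH0, Real.rpow_neg hH0.le D, Real.rpow_add hB0 (DR + ε * D) β, div_eq_mul_inv]
      ring
    rw [e1]
    have h4 : (B : ℝ) ^ (DR + ε * D + β) ≤ (H : ℝ) ^ (θ * (DR + ε * D + β)) := by
      rw [Real.rpow_mul hH0.le]
      exact Real.rpow_le_rpow hB0.le hBH (by positivity)
    calc _ ≤ (H : ℝ) ^ (-((1 - κ) * (r - R)) + r * ε * (1 + κ) - D) * (H : ℝ) ^ (θ * (DR + ε * D + β)) :=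
          mul_le_mul_of_nonneg_left h4 (by positivity)
      _ ≤ _ := by
          rw [← Real.rpow_add hH0]
          refine Real.rpow_le_rpow_of_exponent_le hH1 ?_
          have h6 : θ * (DR + ε * D + β) = θ * (β + DR) + ε * (θ * D) := by ring
          linarith

end exponents

section main

variable {N r : ℕ}

/-- the exceptional tuples, for the values of the forms -/
def Exc (d : Fin r → ℕ) (m : Fin r → ℕ∞) (A : Set (Fin (N + 1) → ℤ)) (H : ℕ) (Q R : ℝ) :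
    Set (∀ i, Monomials N (d i) → ℤ) :=
  {t | (∀ i α, |t i α| ≤ (H : ℤ)) ∧ ∃ S : Finset ℕ, (∀ p ∈ S, p.Prime) ∧
    ((∏ p ∈ S, p : ℕ) : ℝ) ≤ Q ∧ ∃ x ∈ A, (∀ j, |(x j : ℝ)| ≤ R) ∧ Prim x ∧
      ∀ (i : Fin r) (p : ℕ), p.Prime → p ∉ S → (p : ℤ) ∣ val (t i) x →
        ∀ k : ℕ, (k : ℕ∞) ≤ m i → (p : ℤ) ^ k ∣ val (t i) x}

/-- the points of height at most `L` -/
def pts (A : Set (Fin (N + 1) → ℤ)) (L : ℕ) : Set (Fin (N + 1) → ℤ) :=
  {x | x ∈ A ∧ Prim x ∧ ∀ j, |x j| ≤ (L : ℤ)}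

lemma pts_finite (A : Set (Fin (N + 1) → ℤ)) (L : ℕ) : (pts A L).Finite := by
  refine (Finset.finite_toSet (Fintype.piFinset fun _ : Fin (N + 1) => Icc (-(L : ℤ)) L)).subset ?_
  intro x hx
  rw [mem_coe, Fintype.mem_piFinset]
  intro j
  rw [mem_Icc]
  exact abs_le.1 (hx.2.2 j)

/-- the height -/
def hgt (x : Fin (N + 1) → ℤ) : ℕ := univ.sup fun j => (x j).natAbs

lemma le_hgt (x : Fin (N + 1) → ℤ) (j : Fin (N + 1)) : |x j| ≤ (hgt x : ℤ) := by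
  have : (x j).natAbs ≤ hgt x := le_sup (f := fun j => (x j).natAbs) (mem_univ j)
  rw [Int.abs_eq_natAbs]
  exact_mod_cast this

lemma hgt_le {x : Fin (N + 1) → ℤ} {L : ℕ} : hgt x ≤ L ↔ ∀ j, |x j| ≤ (L : ℤ) := by
  unfold hgt
  rw [Finset.sup_le_iff]
  constructor
  · intro h j
    have := h j (mem_univ j)
    rw [Int.abs_eq_natAbs]
    exact_mod_cast this
  · intro h j _
    have := h j
    rw [Int.abs_eq_natAbs] at this
    exact_mod_cast this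

lemma exists_hgt (x : Fin (N + 1) → ℤ) : ∃ i₀, (x i₀).natAbs = hgt x := by
  obtain ⟨i, -, hi⟩ := Finset.exists_mem_eq_sup (univ : Finset (Fin (N + 1))) univ_nonempty
    (fun j => (x j).natAbs)
  exact ⟨i, hi.symm⟩

lemma one_le_hgt {x : Fin (N + 1) → ℤ} (hx : Prim x) : 1 ≤ hgt x := by
  obtain ⟨j, hj⟩ := hx 2 Nat.prime_two
  have h0 : x j ≠ 0 := fun h => hj (by rw [h]; exact dvd_zero _)
  have h1 : 0 < |x j| := abs_pos.2 h0
  have := le_hgt x j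
  omega

/-- **The number of the exceptional tuples.** -/
theorem main0 (N : ℕ) (hr : 0 < r) (d : Fin r → ℕ) (m : Fin r → ℕ∞) (hm : ∀ i, 2 ≤ m i)
    {β κ θ : ℝ} (hβ : 0 ≤ β) (hκ0 : 0 ≤ κ) (hκ1 : κ < 1) (hθ : 1 ≤ θ)
    (hcond : θ * (β + ∑ i, d i * rc (m i)) + ∑ i, (rc (m i) + κ * (1 - rc (m i))) <
      ∑ i, ((d i : ℝ) + 1)) :
    ∃ η C : ℝ, 0 < η ∧ 0 ≤ C ∧ ∀ (A : Set (Fin (N + 1) → ℤ)) (K : ℝ),
      (∀ L : ℕ, 1 ≤ L → ((pts A L).ncard : ℝ) ≤ K * (L : ℝ) ^ β) → ∀ H : ℕ, 1 ≤ H →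
      ((Exc d m A H ((H : ℝ) ^ κ) ((H : ℝ) ^ θ)).ncard : ℝ) ≤
        C * K * (H : ℝ) ^ (-η) * ∏ i, ((2 * H + 1 : ℕ) : ℝ) ^ Fintype.card (Monomials N (d i)) := by
  classical
  have hrc : ∀ i, rc (m i) ≤ 1 / 2 := fun i => rc_le (hm i)
  set G' : ℝ := (1 - κ) * ∑ i, (1 - rc (m i)) with hG'
  set G : ℝ := ∑ i, ((d i : ℝ) + 1) - θ * (β + ∑ i, d i * rc (m i)) -
      ∑ i, (rc (m i) + κ * (1 - rc (m i))) with hG
  have hG0 : 0 < G := by
    rw [hG]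
    linarith
  have hG'0 : 0 < G' := by
    refine mul_pos (by linarith) ?_
    refine sum_pos (fun i _ => ?_) ⟨⟨0, hr⟩, mem_univ _⟩
    have := hrc i
    linarith
  set δ : ℝ := min G G' / 2 with hδ
  have hδ0 : 0 < δ := by
    rw [hδ]
    have := lt_min hG0 hG'0
    linarith
  have hδG : 2 * δ ≤ G := by
    rw [hδ]
    have := min_le_left G G'
    linarith
  have hδG' : 2 * δ ≤ G' := by
    rw [hδ]
    have := min_le_right G G'
    linarith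
  set D : ℝ := ∑ i, (d i : ℝ) with hD
  have hD0 : 0 ≤ D := sum_nonneg fun i _ => Nat.cast_nonneg _
  have hr0 : (0 : ℝ) ≤ r := Nat.cast_nonneg _
  have hden : 0 < 2 * (r : ℝ) + θ * D + 1 := by positivity
  set ε : ℝ := δ / (2 * r + θ * D + 1) with hε
  have hε0 : 0 < ε := div_pos hδ0 hden
  have hε1 : ε * (2 * r + θ * D) ≤ δ := by
    have h1 : ε * (2 * r + θ * D + 1) = δ := div_mul_cancel₀ _ hden.ne'
    linarith
  choose C hC hsingle using fun i => single (hm i) N (d i) hε0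
  have hlog2 : 0 < Real.log 2 := Real.log_pos (by norm_num)
  refine ⟨δ / 2, (∏ i, C i) * (2 ^ β * (1 + θ * (2 / δ) / Real.log 2)), by positivity,
    mul_nonneg (prod_nonneg fun i _ => (hC i).le) (by positivity), fun A K hA H hH => ?_⟩
  have hK0 : 0 ≤ K := by
    have h1 := hA 1 le_rfl
    rw [Nat.cast_one, Real.one_rpow, mul_one] at h1
    exact le_trans (Nat.cast_nonneg _) h1
  have hH1 : (1 : ℝ) ≤ H := by exact_mod_cast hH
  have hH0 : (0 : ℝ) < H := by linarith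
  set Q : ℕ := ⌊(H : ℝ) ^ κ⌋₊ with hQ
  set L : ℕ := ⌊(H : ℝ) ^ θ⌋₊ with hL
  have hQ1 : 1 ≤ Q := Nat.le_floor (by
    rw [Nat.cast_one]
    exact Real.one_le_rpow hH1 hκ0)
  have hL1 : 1 ≤ L := Nat.le_floor (by
    rw [Nat.cast_one]
    exact Real.one_le_rpow hH1 (by linarith))
  have hQH : (Q : ℝ) ≤ (H : ℝ) ^ κ := Nat.floor_le (by positivity)
  have hLH : (L : ℝ) ≤ (H : ℝ) ^ θ := Nat.floor_le (by positivity)
  set P : Finset (Fin (N + 1) → ℤ) := (pts_finite A L).toFinset with hP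
  have hPmem : ∀ x, x ∈ P ↔ x ∈ A ∧ Prim x ∧ ∀ j, |x j| ≤ (L : ℤ) := fun x => by
    rw [hP, Set.Finite.mem_toFinset]
    rfl
  set W : (Fin (N + 1) → ℤ) → Finset (∀ i, Monomials N (d i) → ℤ) := fun x =>
    Fintype.piFinset fun i => (Box N (d i) H).filter fun t => Good (m i) Q (val t x) with hW
  have hsub : Exc d m A H ((H : ℝ) ^ κ) ((H : ℝ) ^ θ) ⊆ ↑(P.biUnion W) := by
    rintro t ⟨ht, S, hS, hSQ, x, hxA, hxR, hx, hfull⟩
    rw [mem_coe, mem_biUnion]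
    refine ⟨x, (hPmem x).2 ⟨hxA, hx, fun j => ?_⟩, ?_⟩
    · have h1 : ((x j).natAbs : ℝ) ≤ (H : ℝ) ^ θ := by
        have h2 := hxR j
        rwa [← Int.cast_abs, Int.abs_eq_natAbs, Int.cast_natCast] at h2
      have h3 : (x j).natAbs ≤ L := Nat.le_floor h1
      rw [Int.abs_eq_natAbs]
      exact_mod_cast h3
    · rw [hW]
      simp only
      rw [Fintype.mem_piFinset]
      intro i
      rw [mem_filter, mem_Box]
      exact ⟨ht i, S, hS, Nat.le_floor hSQ, fun p hp hpS hpv k hk => hfull i p hp hpS hpv k hk⟩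
  have hcard : ((Exc d m A H ((H : ℝ) ^ κ) ((H : ℝ) ^ θ)).ncard : ℝ) ≤
      ∑ x ∈ P, ∏ i, (((Box N (d i) H).filter fun t => Good (m i) Q (val t x)).card : ℝ) := by
    have h1 := Set.ncard_le_ncard hsub (Finset.finite_toSet _)
    rw [Set.ncard_coe_finset] at h1
    have h2 := h1.trans card_biUnion_le
    have h3 : ((∑ x ∈ P, (W x).card : ℕ) : ℝ) =
        ∑ x ∈ P, ∏ i, (((Box N (d i) H).filter fun t => Good (m i) Q (val t x)).card : ℝ) := by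
      push_cast
      refine sum_congr rfl fun x _ => ?_
      rw [hW]
      simp only
      rw [Fintype.card_piFinset]
      push_cast
      rfl
    rw [← h3]
    exact_mod_cast h2
  refine hcard.trans ?_
  set Pz : ℝ := ∏ i, ((2 * H + 1 : ℕ) : ℝ) ^ Fintype.card (Monomials N (d i)) with hPz
  have hPz0 : 0 ≤ Pz := prod_nonneg fun i _ => by positivity
  have hCp : 0 ≤ ∏ i, C i := prod_nonneg fun i _ => (hC i).le
  have hterm : ∀ x ∈ P, ∏ i, (((Box N (d i) H).filter fun t => Good (m i) Q (val t x)).card : ℝ) ≤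
      (∏ i, C i) * Pz * (H : ℝ) ^ (-δ) * (hgt x : ℝ) ^ (-β) := by
    intro x hx
    obtain ⟨hxA, hxp, hxL⟩ := (hPmem x).1 hx
    obtain ⟨i₀, hi₀⟩ := exists_hgt x
    have hB1 := one_le_hgt hxp
    have hBL : hgt x ≤ L := hgt_le.2 hxL
    have h1 := pointwise d m hm hβ hκ0 hκ1 hθ hδ0 hε0 hε1 hδG' hδG hH hQ1 hQH hB1
      ((Nat.cast_le.2 hBL).trans hLH)
    calc _ ≤ ∏ i, (C i * ((2 * H + 1 : ℕ) : ℝ) ^ Fintype.card (Monomials N (d i)) *
          ((H : ℝ) ^ (rc (m i) + ε - 1) * (hgt x : ℝ) ^ (d i * (rc (m i) + ε)) *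
            (min (hgt x : ℝ) H) ^ (-(d i : ℝ)) * (Q : ℝ) ^ (1 - rc (m i) + ε))) := by
          refine prod_le_prod (fun i _ => Nat.cast_nonneg _) fun i _ => ?_
          exact hsingle i H Q (hgt x) hH hQ1 hB1 x hxp i₀ hi₀ (le_hgt x)
      _ = (∏ i, C i) * Pz * ∏ i, ((H : ℝ) ^ (rc (m i) + ε - 1) *
            (hgt x : ℝ) ^ (d i * (rc (m i) + ε)) *
            (min (hgt x : ℝ) H) ^ (-(d i : ℝ)) * (Q : ℝ) ^ (1 - rc (m i) + ε)) := by
          rw [prod_mul_distrib, prod_mul_distrib]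
      _ ≤ (∏ i, C i) * Pz * ((H : ℝ) ^ (-δ) * (hgt x : ℝ) ^ (-β)) :=
          mul_le_mul_of_nonneg_left h1 (mul_nonneg hCp hPz0)
      _ = _ := by ring
  refine (sum_le_sum hterm).trans ?_
  rw [← mul_sum]
  have hdy := dyadic P hgt (fun x hx => one_le_hgt ((hPmem x).1 hx).2.1) hβ (K := K) (fun L' hL' => by
    refine le_trans ?_ (hA L' hL')
    have h1 : (↑(P.filter fun x => hgt x ≤ L') : Set (Fin (N + 1) → ℤ)) ⊆ pts A L' := by
      intro x hx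
      rw [mem_coe, mem_filter] at hx
      obtain ⟨hxA, hxp, -⟩ := (hPmem x).1 hx.1
      exact ⟨hxA, hxp, hgt_le.1 hx.2⟩
    have h2 := Set.ncard_le_ncard h1 (pts_finite A L')
    rw [Set.ncard_coe_finset] at h2
    exact_mod_cast h2) (L := L) (fun x hx => hgt_le.2 ((hPmem x).1 hx).2.2)
  have hlog : ((Nat.log 2 L : ℕ) : ℝ) + 1 ≤ (1 + θ * (2 / δ) / Real.log 2) * (H : ℝ) ^ (δ / 2) := by
    have h1 : (2 : ℝ) ^ (Nat.log 2 L) ≤ (H : ℝ) ^ θ := by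
      refine le_trans ?_ hLH
      exact_mod_cast Nat.pow_log_le_self 2 (by omega)
    have h2 : (Nat.log 2 L : ℝ) * Real.log 2 ≤ θ * Real.log H := by
      rw [← Real.log_pow, ← Real.log_rpow hH0]
      exact Real.log_le_log (by positivity) h1
    have h3 := Real.log_le_rpow_div (x := (H : ℝ)) hH0.le (ε := δ / 2) (by positivity)
    have h4 : (Nat.log 2 L : ℝ) ≤ θ * (2 / δ) / Real.log 2 * (H : ℝ) ^ (δ / 2) := by
      rw [div_mul_eq_mul_div, le_div_iff₀ hlog2]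
      refine h2.trans ?_
      calc θ * Real.log H ≤ θ * ((H : ℝ) ^ (δ / 2) / (δ / 2)) :=
            mul_le_mul_of_nonneg_left h3 (by linarith)
        _ = _ := by field_simp
    have h5 : (1 : ℝ) ≤ (H : ℝ) ^ (δ / 2) := Real.one_le_rpow hH1 (by positivity)
    linarith
  have hHd : (H : ℝ) ^ (-δ) * (H : ℝ) ^ (δ / 2) = (H : ℝ) ^ (-(δ / 2)) := by
    rw [← Real.rpow_add hH0]
    congr 1
    ring
  calc (∏ i, C i) * Pz * (H : ℝ) ^ (-δ) * ∑ x ∈ P, (hgt x : ℝ) ^ (-β) ≤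
      (∏ i, C i) * Pz * (H : ℝ) ^ (-δ) * (K * 2 ^ β * ((1 + θ * (2 / δ) / Real.log 2) *
        (H : ℝ) ^ (δ / 2))) := by
        refine mul_le_mul_of_nonneg_left (hdy.trans ?_) (by positivity)
        exact mul_le_mul_of_nonneg_left hlog (by positivity)
    _ = (∏ i, C i) * (2 ^ β * (1 + θ * (2 / δ) / Real.log 2)) * K *
        ((H : ℝ) ^ (-δ) * (H : ℝ) ^ (δ / 2)) * Pz := by ring
    _ = _ := by rw [hHd]

end main

end Pool.Agent.L0h11.RP
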