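import Mathlib
import Pool.Agent.L0h11.P.Mn

/-!
# The contents of the forms
-/

set_option autoImplicit false
set_option linter.all false

namespace Pool.Agent.L0h11.RP

open Finset
open Pool.Agent.L0h11 (Monomials)

section content

variable {N d : ℕ}

/-- the content of a form -/
noncomputable def content (t : Monomials N d → ℤ) : ℤ := univ.gcd t

lemma content_dvd (t : Monomials N d → ℤ) (α : Monomials N d) : content t ∣ t α :=
  Finset.gcd_dvd (mem_univ α)

lemma content_dvd_val (t : Monomials N d → ℤ) (x : Fin (N + 1) → ℤ) : content t ∣ val t x := by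
  unfold val
  exact dvd_sum fun α _ => (content_dvd t α).mul_right _

lemma content_zero {t : Monomials N d → ℤ} (h : content t = 0) : t = 0 := by
  funext α
  have := content_dvd t α
  rw [h, zero_dvd_iff] at this
  exact this

lemma two_le_card (hN : 1 ≤ N) (hd : 1 ≤ d) : 2 ≤ Fintype.card (Monomials N d) := by
  have hsum : ∀ i₀ : Fin (N + 1), ∑ i, (((if i = i₀ then ⟨d, by omega⟩ else 0 : Fin (d + 1)) : Fin (d + 1)) : ℕ) = d := by
    intro i₀
    rw [sum_eq_single i₀]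
    · rw [if_pos rfl]
    · intro b _ hb
      rw [if_neg hb]
      rfl
    · intro h
      exact absurd (mem_univ _) h
  let α : Fin (N + 1) → Monomials N d := fun i₀ => ⟨fun i => if i = i₀ then ⟨d, by omega⟩ else 0, hsum i₀⟩
  have hne : α 0 ≠ α (Fin.last N) := by
    intro h
    have h1 := congrArg (fun z : Monomials N d => ((z.1 0 : Fin (d + 1)) : ℕ)) h
    have h2 : (0 : Fin (N + 1)) ≠ Fin.last N := by
      intro h3
      have := congrArg Fin.val h3
      simp at this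
      omega
    have h3 : ((if (0 : Fin (N + 1)) = 0 then ⟨d, by omega⟩ else 0 : Fin (d + 1)) : ℕ) =
        ((if (0 : Fin (N + 1)) = Fin.last N then ⟨d, by omega⟩ else 0 : Fin (d + 1)) : ℕ) := h1
    rw [if_pos rfl, if_neg h2] at h3
    have h4 : d = 0 := h3
    omega
  have : Nontrivial (Monomials N d) := ⟨_, _, hne⟩
  have := Fintype.one_lt_card (α := Monomials N d)
  omega

/-- the multiples -/
lemma mult_card {c H : ℕ} (hc : 1 ≤ c) (hcH : c ≤ H) :
    (((Icc (-(H : ℤ)) H).filter fun z => (c : ℤ) ∣ z).card : ℝ) ≤ 3 * H / c := by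
  classical
  have hc0 : (0 : ℝ) < c := by exact_mod_cast hc
  have h1 : ((Icc (-(H : ℤ)) H).filter fun z => (c : ℤ) ∣ z).card ≤
      (Icc (-((H / c : ℕ) : ℤ)) ((H / c : ℕ) : ℤ)).card := by
    refine card_le_card_of_injOn (fun z => z / c) ?_ ?_
    · intro z hz
      rw [mem_coe, mem_filter, mem_Icc] at hz
      obtain ⟨⟨h1, h2⟩, k, rfl⟩ := hz
      have hc' : (0 : ℤ) < c := by exact_mod_cast hc
      rw [mem_coe, mem_Icc]
      show -((H / c : ℕ) : ℤ) ≤ (c : ℤ) * k / c ∧ (c : ℤ) * k / c ≤ ((H / c : ℕ) : ℤ)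
      rw [Int.mul_ediv_cancel_left _ hc'.ne']
      push_cast
      constructor
      · rw [neg_le, Int.le_ediv_iff_mul_le hc']
        nlinarith
      · rw [Int.le_ediv_iff_mul_le hc']
        nlinarith
    · intro z hz z' hz' h
      rw [mem_coe, mem_filter] at hz hz'
      have h' : z / (c : ℤ) = z' / c := h
      rw [← Int.ediv_mul_cancel hz.2, ← Int.ediv_mul_cancel hz'.2, h']
  have h2 : ((Icc (-((H / c : ℕ) : ℤ)) ((H / c : ℕ) : ℤ)).card : ℝ) = 2 * ((H / c : ℕ) : ℝ) + 1 := by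
    rw [Int.card_Icc]
    have : ((((H / c : ℕ) : ℤ) + 1 - -((H / c : ℕ) : ℤ)).toNat) = 2 * (H / c) + 1 := by omega
    rw [this]
    push_cast
    ring
  have h3 : ((H / c : ℕ) : ℝ) ≤ (H : ℝ) / c := Nat.cast_div_le
  have h4 : (1 : ℝ) ≤ (H : ℝ) / c := by
    rw [le_div_iff₀ hc0, one_mul]
    exact_mod_cast hcH
  calc _ ≤ ((Icc (-((H / c : ℕ) : ℤ)) ((H / c : ℕ) : ℤ)).card : ℝ) := by exact_mod_cast h1
    _ = 2 * ((H / c : ℕ) : ℝ) + 1 := h2
    _ ≤ 3 * ((H : ℝ) / c) := by linarith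
    _ = _ := by ring

open Classical in
/-- **The forms with large content.** -/
theorem bad_content (hn : 2 ≤ Fintype.card (Monomials N d)) {H Y : ℕ} (hH : 1 ≤ H) (hY : 1 ≤ Y)
    (hYH : Y ≤ H) :
    (((Box N d H).filter fun t => content t = 0 ∨ Y < (content t).natAbs).card : ℝ) ≤
      (1 + 2 ^ Fintype.card (Monomials N d)) / Y *
        ((2 * H + 1 : ℕ) : ℝ) ^ Fintype.card (Monomials N d) := by
  set n := Fintype.card (Monomials N d) with hn'
  have hY0 : (0 : ℝ) < Y := by exact_mod_cast hY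
  have hH1 : (1 : ℝ) ≤ H := by exact_mod_cast hH
  let E : ℕ → Finset (Monomials N d → ℤ) := fun c =>
    Fintype.piFinset fun _ => (Icc (-(H : ℤ)) H).filter fun z => (c : ℤ) ∣ z
  have hsub : ((Box N d H).filter fun t => content t = 0 ∨ Y < (content t).natAbs) ⊆
      insert 0 ((Ioc Y H).biUnion E) := by
    intro t ht
    rw [mem_filter, mem_Box] at ht
    rw [mem_insert]
    by_cases h0 : content t = 0
    · exact Or.inl (content_zero h0)
    · right
      have hc := ht.2.resolve_left h0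
      have hne : t ≠ 0 := by
        rintro rfl
        apply h0
        unfold content
        rw [Finset.gcd_eq_zero_iff]
        intro α _
        rfl
      obtain ⟨α, hα⟩ : ∃ α, t α ≠ 0 := by
        by_contra hcon
        push Not at hcon
        exact hne (funext hcon)
      have hle : (content t).natAbs ≤ H := by
        have h1 : (content t).natAbs ≤ (t α).natAbs :=
          Nat.le_of_dvd (Int.natAbs_pos.2 hα) (Int.natAbs_dvd_natAbs.2 (content_dvd t α))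
        have h2 := ht.1 α
        rw [Int.abs_eq_natAbs] at h2
        have h3 : (t α).natAbs ≤ H := by exact_mod_cast h2
        omega
      rw [mem_biUnion]
      refine ⟨(content t).natAbs, mem_Ioc.2 ⟨hc, hle⟩, ?_⟩
      rw [Fintype.mem_piFinset]
      intro β
      rw [mem_filter, mem_Icc]
      exact ⟨abs_le.1 (ht.1 β), Int.natAbs_dvd.2 (content_dvd t β)⟩
  have hE : ∀ c ∈ Ioc Y H, ((E c).card : ℝ) ≤ 2 ^ n * ((2 * H + 1 : ℕ) : ℝ) ^ n * ((c : ℝ) ^ 2)⁻¹ := by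
    intro c hc
    rw [mem_Ioc] at hc
    have hc1 : 1 ≤ c := by omega
    have hc1' : (1 : ℝ) ≤ c := by exact_mod_cast hc1
    have h1 : ((E c).card : ℝ) = (((Icc (-(H : ℤ)) H).filter fun z => (c : ℤ) ∣ z).card : ℝ) ^ n := by
      rw [Fintype.card_piFinset, prod_const, card_univ]
      push_cast
      rfl
    rw [h1]
    calc _ ≤ (3 * (H : ℝ) / c) ^ n := pow_le_pow_left₀ (Nat.cast_nonneg _) (mult_card hc1 hc.2) n
      _ = (3 * (H : ℝ)) ^ n * ((c : ℝ) ^ n)⁻¹ := by rw [div_pow, div_eq_mul_inv]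
      _ ≤ (2 * ((2 * H + 1 : ℕ) : ℝ)) ^ n * ((c : ℝ) ^ 2)⁻¹ := by
          refine mul_le_mul ?_ ?_ (by positivity) (by positivity)
          · refine pow_le_pow_left₀ (by positivity) ?_ n
            push_cast
            linarith
          · refine inv_anti₀ (by positivity) ?_
            exact pow_le_pow_right₀ hc1' hn
      _ = _ := by rw [mul_pow]
  have h1 := (card_le_card hsub).trans (card_insert_le _ _)
  have h2 : (((Ioc Y H).biUnion E).card : ℝ) ≤ 2 ^ n * ((2 * H + 1 : ℕ) : ℝ) ^ n * (Y : ℝ)⁻¹ := by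
    have h3 : (((Ioc Y H).biUnion E).card : ℝ) ≤ ∑ c ∈ Ioc Y H, ((E c).card : ℝ) := by
      exact_mod_cast card_biUnion_le
    refine h3.trans ((sum_le_sum hE).trans ?_)
    rw [← mul_sum]
    refine mul_le_mul_of_nonneg_left ?_ (by positivity)
    have h4 := sum_Ioc_inv_sq_le_sub (α := ℝ) (k := Y) (n := H) (by omega) hYH
    have h5 : (0 : ℝ) ≤ (H : ℝ)⁻¹ := by positivity
    linarith
  have h3 : (1 : ℝ) ≤ ((2 * H + 1 : ℕ) : ℝ) ^ n * (Y : ℝ)⁻¹ := by
    rw [← div_eq_mul_inv, le_div_iff₀ hY0, one_mul]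
    have h4 : (Y : ℝ) ≤ ((2 * H + 1 : ℕ) : ℝ) := by exact_mod_cast (by omega : Y ≤ 2 * H + 1)
    refine h4.trans ?_
    exact le_self_pow₀ (by push_cast; linarith) (by omega)
  have h4 : (((Box N d H).filter fun t => content t = 0 ∨ Y < (content t).natAbs).card : ℝ) ≤
      (((Ioc Y H).biUnion E).card : ℝ) + 1 := by exact_mod_cast h1
  calc _ ≤ 2 ^ n * ((2 * H + 1 : ℕ) : ℝ) ^ n * (Y : ℝ)⁻¹ + ((2 * H + 1 : ℕ) : ℝ) ^ n * (Y : ℝ)⁻¹ := by
        linarith
    _ = _ := by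
        rw [div_eq_mul_inv]
        ring

end content

section final

variable {N r : ℕ}

/-- The rational point of the projective space with the coprime homogeneous coordinates `x` is an
integral point, outside the finite set `S` of primes, of the C-pair with the divisors `D i` given by the
forms of degree `d i` with the coefficients `t i`, and the multiplicities `m i`: if `p ∉ S` and the
intersection number of the point with the closure of `D i` at `p`, the exponent of `p` in the value at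
`x` of the form divided by its content, is positive, then it is at least `m i`. (The zero form has
content `0`, and the condition for it is empty.) -/
def IsPoint {d : Fin r → ℕ} (S : Finset ℕ) (m : Fin r → ℕ∞) (t : ∀ i, Monomials N (d i) → ℤ)
    (x : Fin (N + 1) → ℤ) : Prop :=
  Prim x ∧ ∀ (i : Fin r) (p : ℕ), p.Prime → p ∉ S → (p : ℤ) * content (t i) ∣ val (t i) x →
    ∀ k : ℕ, (k : ℕ∞) ≤ m i → (p : ℤ) ^ k * content (t i) ∣ val (t i) x

/-- The tuples of forms with integer coefficients of absolute value at most `H` such that, for some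
finite set `S` of primes with product at most `Q`, the C-pair has an integral point outside `S` in the
set `A`, with coordinates of absolute value at most `R`. -/
def Exceptional (d : Fin r → ℕ) (m : Fin r → ℕ∞) (A : Set (Fin (N + 1) → ℤ)) (H : ℕ) (Q R : ℝ) :
    Set (∀ i, Monomials N (d i) → ℤ) :=
  {t | (∀ i α, |t i α| ≤ (H : ℤ)) ∧ ∃ S : Finset ℕ, (∀ p ∈ S, p.Prime) ∧
    ((∏ p ∈ S, p : ℕ) : ℝ) ≤ Q ∧ ∃ x ∈ A, (∀ j, |(x j : ℝ)| ≤ R) ∧ IsPoint S m t x}

lemma exceptional_finite (d : Fin r → ℕ) (m : Fin r → ℕ∞) (A : Set (Fin (N + 1) → ℤ)) (H : ℕ)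
    (Q R : ℝ) : (Exceptional d m A H Q R).Finite := by
  refine (Finset.finite_toSet (Fintype.piFinset fun i => Box N (d i) H)).subset ?_
  intro t ht
  rw [mem_coe, Fintype.mem_piFinset]
  exact fun i => mem_Box.2 (ht.1 i)

lemma exc_finite (d : Fin r → ℕ) (m : Fin r → ℕ∞) (A : Set (Fin (N + 1) → ℤ)) (H : ℕ)
    (Q R : ℝ) : (Exc d m A H Q R).Finite := by
  refine (Finset.finite_toSet (Fintype.piFinset fun i => Box N (d i) H)).subset ?_
  intro t ht
  rw [mem_coe, Fintype.mem_piFinset]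
  exact fun i => mem_Box.2 (ht.1 i)

/-- small contents -/
lemma exc_of_content {d : Fin r → ℕ} {m : Fin r → ℕ∞} {A : Set (Fin (N + 1) → ℤ)} {H Y : ℕ}
    {Q R : ℝ} (hQ : 0 ≤ Q) {t : ∀ i, Monomials N (d i) → ℤ} (ht : t ∈ Exceptional d m A H Q R)
    (hc : ∀ i, content (t i) ≠ 0 ∧ (content (t i)).natAbs ≤ Y) :
    t ∈ Exc d m A H (Q * (Y : ℝ) ^ r) R := by
  classical
  obtain ⟨hb, S, hS, hSQ, x, hxA, hxR, hx, hpt⟩ := ht
  set c : ℕ := ∏ i, (content (t i)).natAbs with hcdef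
  have hc0 : c ≠ 0 := by
    rw [hcdef, prod_ne_zero_iff]
    exact fun i _ => Int.natAbs_ne_zero.2 (hc i).1
  refine ⟨hb, S ∪ c.primeFactors, ?_, ?_, x, hxA, hxR, hx, ?_⟩
  · intro p hp
    rcases mem_union.1 hp with h | h
    · exact hS p h
    · exact Nat.prime_of_mem_primeFactors h
  · have h1 : (∏ p ∈ S ∪ c.primeFactors, p) ≤ (∏ p ∈ S, p) * ∏ p ∈ c.primeFactors, p := by
      rw [← prod_union_inter]
      refine Nat.le_mul_of_pos_right _ (prod_pos fun p hp => ?_)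
      exact (hS p (mem_inter.1 hp).1).pos
    have h2 : (∏ p ∈ c.primeFactors, p) ≤ c := Nat.le_of_dvd (Nat.pos_of_ne_zero hc0)
      (Nat.prod_primeFactors_dvd c)
    have h3 : c ≤ Y ^ r := by
      rw [hcdef]
      refine (prod_le_prod' fun i _ => (hc i).2).trans (le_of_eq ?_)
      rw [prod_const, card_univ, Fintype.card_fin]
    have h4 : (((∏ p ∈ S ∪ c.primeFactors, p) : ℕ) : ℝ) ≤
        ((∏ p ∈ S, p : ℕ) : ℝ) * ((Y : ℝ) ^ r) := by
      have h5 := h1.trans (Nat.mul_le_mul_left _ (h2.trans h3))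
      have h6 := (Nat.cast_le (α := ℝ)).2 h5
      rwa [Nat.cast_mul, Nat.cast_pow] at h6
    exact h4.trans (mul_le_mul_of_nonneg_right hSQ (by positivity))
  · intro i p hp hpS hpv k hk
    rw [mem_union, not_or] at hpS
    have hcop : ¬ (p : ℤ) ∣ content (t i) := by
      intro h
      apply hpS.2
      rw [Nat.mem_primeFactors]
      refine ⟨hp, ?_, hc0⟩
      exact (Int.natCast_dvd.1 h).trans (dvd_prod_of_mem _ (mem_univ i))
    have hcop' : IsCoprime (p : ℤ) (content (t i)) := by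
      rw [Prime.coprime_iff_not_dvd (Nat.prime_iff_prime_int.1 hp)]
      exact hcop
    have h1 := hcop'.mul_dvd hpv (content_dvd_val (t i) x)
    exact (Dvd.intro _ rfl).trans (hpt i p hp hpS.1 h1 k hk)

/-- **The number of the exceptional tuples.** -/
theorem main1 (hN : 1 ≤ N) (hr : 0 < r) (d : Fin r → ℕ) (hd : ∀ i, 1 ≤ d i) (m : Fin r → ℕ∞)
    (hm : ∀ i, 2 ≤ m i) {β κ θ : ℝ} (hβ : 0 ≤ β) (hκ0 : 0 ≤ κ) (hκ1 : κ < 1) (hθ : 1 ≤ θ)
    (hcond : θ * (β + ∑ i, d i * rc (m i)) + ∑ i, (rc (m i) + κ * (1 - rc (m i))) <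
      ∑ i, ((d i : ℝ) + 1)) :
    ∃ η C : ℝ, 0 < η ∧ ∀ (A : Set (Fin (N + 1) → ℤ)) (K : ℝ),
      (∀ L : ℕ, 1 ≤ L → ((pts A L).ncard : ℝ) ≤ K * (L : ℝ) ^ β) → ∀ H : ℕ, 1 ≤ H →
      ((Exceptional d m A H ((H : ℝ) ^ κ) ((H : ℝ) ^ θ)).ncard : ℝ) ≤
        C * (K + 1) * (H : ℝ) ^ (-η) * ∏ i, ((2 * H + 1 : ℕ) : ℝ) ^ Fintype.card (Monomials N (d i)) := by
  classical
  have hr1 : (1 : ℝ) ≤ r := by exact_mod_cast hr
  set gap : ℝ := ∑ i, ((d i : ℝ) + 1) - (θ * (β + ∑ i, d i * rc (m i)) +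
    ∑ i, (rc (m i) + κ * (1 - rc (m i)))) with hgap
  have hgap0 : 0 < gap := by
    rw [hgap]
    linarith
  set κ₂ : ℝ := min ((1 - κ) / (2 * r)) (gap / (2 * r ^ 2)) with hκ₂
  have hκ₂0 : 0 < κ₂ := lt_min (div_pos (by linarith) (by positivity)) (by positivity)
  have hk1 : r * κ₂ ≤ (1 - κ) / 2 := by
    have h1 : κ₂ ≤ (1 - κ) / (2 * r) := min_le_left _ _
    calc r * κ₂ ≤ r * ((1 - κ) / (2 * r)) := mul_le_mul_of_nonneg_left h1 (by linarith)
      _ = _ := by field_simp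
  have hk2 : r * (r * κ₂) ≤ gap / 2 := by
    have h1 : κ₂ ≤ gap / (2 * r ^ 2) := min_le_right _ _
    calc r * (r * κ₂) ≤ r * (r * (gap / (2 * r ^ 2))) :=
          mul_le_mul_of_nonneg_left (mul_le_mul_of_nonneg_left h1 (by linarith)) (by linarith)
      _ = _ := by field_simp
  have hκ₂1 : κ₂ ≤ 1 := by
    have h1 : κ₂ ≤ r * κ₂ := le_mul_of_one_le_left hκ₂0.le hr1
    linarith
  have hrc : ∀ i, rc (m i) ≤ 1 / 2 := fun i => rc_le (hm i)
  have hcond' : θ * (β + ∑ i, d i * rc (m i)) + ∑ i, (rc (m i) + (κ + r * κ₂) * (1 - rc (m i))) <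
      ∑ i, ((d i : ℝ) + 1) := by
    have h1 : ∑ i, (rc (m i) + (κ + r * κ₂) * (1 - rc (m i))) ≤
        ∑ i, (rc (m i) + κ * (1 - rc (m i))) + r * (r * κ₂) := by
      have h2 : ∀ i ∈ (univ : Finset (Fin r)), rc (m i) + (κ + r * κ₂) * (1 - rc (m i)) ≤
          (rc (m i) + κ * (1 - rc (m i))) + r * κ₂ := by
        intro i _
        have h3 := rc_nonneg (m i)
        have h4 : 0 ≤ (r : ℝ) * κ₂ := by positivity
        nlinarith [mul_nonneg h4 h3]
      refine (sum_le_sum h2).trans (le_of_eq ?_)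
      rw [sum_add_distrib, sum_const, card_univ, Fintype.card_fin, nsmul_eq_mul]
    linarith
  obtain ⟨η₀, C₀, hη₀, hC₀, h0⟩ := main0 N hr d m hm (κ := κ + r * κ₂) hβ (by positivity) (by linarith) hθ
    hcond'
  set c₁ : ℝ := ∑ i, (1 + 2 ^ Fintype.card (Monomials N (d i)) : ℝ) * 2 with hc₁
  have hc₁0 : 0 ≤ c₁ := sum_nonneg fun i _ => by positivity
  refine ⟨min η₀ κ₂, C₀ + c₁, lt_min hη₀ hκ₂0, fun A K hA H hH => ?_⟩
  have hK0 : 0 ≤ K := by
    have h1 := hA 1 le_rfl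
    rw [Nat.cast_one, Real.one_rpow, mul_one] at h1
    exact le_trans (Nat.cast_nonneg _) h1
  have hH1 : (1 : ℝ) ≤ H := by exact_mod_cast hH
  have hH0 : (0 : ℝ) < H := by linarith
  set Pz : ℝ := ∏ i, ((2 * H + 1 : ℕ) : ℝ) ^ Fintype.card (Monomials N (d i)) with hPz
  have hPz0 : 0 ≤ Pz := prod_nonneg fun i _ => by positivity
  set Y : ℕ := ⌊(H : ℝ) ^ κ₂⌋₊ with hY
  have hY1 : 1 ≤ Y := Nat.le_floor (by
    rw [Nat.cast_one]
    exact Real.one_le_rpow hH1 hκ₂0.le)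
  have hYH' : (Y : ℝ) ≤ (H : ℝ) ^ κ₂ := Nat.floor_le (by positivity)
  have hYH : Y ≤ H := by
    have h1 : (H : ℝ) ^ κ₂ ≤ (H : ℝ) ^ (1 : ℝ) := Real.rpow_le_rpow_of_exponent_le hH1 hκ₂1
    rw [Real.rpow_one] at h1
    exact_mod_cast hYH'.trans h1
  have hYinv : (1 : ℝ) / Y ≤ 2 * (H : ℝ) ^ (-κ₂) := by
    have hY0 : (0 : ℝ) < Y := by exact_mod_cast hY1
    have h1 : (H : ℝ) ^ κ₂ < Y + 1 := Nat.lt_floor_add_one _
    have h2 : (1 : ℝ) ≤ Y := by exact_mod_cast hY1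
    rw [Real.rpow_neg hH0.le, ← div_eq_mul_inv, div_le_div_iff₀ hY0 (by positivity)]
    linarith
  -- the bad tuples
  let Bad : Fin r → Finset (∀ i, Monomials N (d i) → ℤ) := fun i₀ => Fintype.piFinset fun i =>
    if i = i₀ then (Box N (d i) H).filter fun t => content t = 0 ∨ Y < (content t).natAbs
      else Box N (d i) H
  have hsub : Exceptional d m A H ((H : ℝ) ^ κ) ((H : ℝ) ^ θ) ⊆
      Exc d m A H ((H : ℝ) ^ (κ + r * κ₂)) ((H : ℝ) ^ θ) ∪ ↑(univ.biUnion Bad) := by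
    intro t ht
    by_cases hc : ∀ i, content (t i) ≠ 0 ∧ (content (t i)).natAbs ≤ Y
    · left
      have h1 := exc_of_content (by positivity) ht hc
      obtain ⟨hb, S, hS, hSQ, h2⟩ := h1
      refine ⟨hb, S, hS, hSQ.trans ?_, h2⟩
      rw [Real.rpow_add hH0]
      refine mul_le_mul_of_nonneg_left ?_ (by positivity)
      rw [mul_comm (r : ℝ), Real.rpow_mul hH0.le, Real.rpow_natCast]
      exact pow_le_pow_left₀ (Nat.cast_nonneg _) hYH' r
    · right
      push Not at hc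
      obtain ⟨i₀, hi₀⟩ := hc
      rw [mem_coe, mem_biUnion]
      refine ⟨i₀, mem_univ _, ?_⟩
      rw [Fintype.mem_piFinset]
      intro i
      by_cases hi : i = i₀
      · subst hi
        rw [if_pos rfl, mem_filter, mem_Box]
        refine ⟨ht.1 i, ?_⟩
        by_cases h0 : content (t i) = 0
        · exact Or.inl h0
        · exact Or.inr (hi₀ h0)
      · rw [if_neg hi, mem_Box]
        exact ht.1 i
  have hbad : (((univ.biUnion Bad : Finset (∀ i, Monomials N (d i) → ℤ))).card : ℝ) ≤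
      c₁ * (H : ℝ) ^ (-κ₂) * Pz := by
    have h1 : (((univ.biUnion Bad : Finset (∀ i, Monomials N (d i) → ℤ))).card : ℝ) ≤
        ∑ i₀, ((Bad i₀).card : ℝ) := by exact_mod_cast card_biUnion_le
    refine h1.trans ?_
    rw [hc₁, sum_mul, sum_mul]
    refine sum_le_sum fun i₀ _ => ?_
    have h2 : ((Bad i₀).card : ℝ) ≤ ∏ i, ((if i = i₀ then
        (1 + 2 ^ Fintype.card (Monomials N (d i₀)) : ℝ) / Y else 1) *
          ((2 * H + 1 : ℕ) : ℝ) ^ Fintype.card (Monomials N (d i))) := by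
      rw [Fintype.card_piFinset]
      push_cast
      refine prod_le_prod (fun i _ => Nat.cast_nonneg _) fun i _ => ?_
      by_cases hi : i = i₀
      · subst hi
        rw [if_pos rfl, if_pos rfl]
        have h3 := bad_content (two_le_card hN (hd i)) hH hY1 hYH
        push_cast at h3
        exact h3
      · rw [if_neg hi, if_neg hi, one_mul, card_Box]
        push_cast
        exact le_rfl
    rw [prod_mul_distrib, prod_ite_eq' univ i₀, if_pos (mem_univ _)] at h2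
    refine h2.trans ?_
    refine mul_le_mul_of_nonneg_right ?_ hPz0
    calc (1 + 2 ^ Fintype.card (Monomials N (d i₀)) : ℝ) / Y =
        (1 + 2 ^ Fintype.card (Monomials N (d i₀))) * (1 / Y) := by ring
      _ ≤ (1 + 2 ^ Fintype.card (Monomials N (d i₀))) * (2 * (H : ℝ) ^ (-κ₂)) :=
          mul_le_mul_of_nonneg_left hYinv (by positivity)
      _ = _ := by ring
  have hfin : (Exc d m A H ((H : ℝ) ^ (κ + r * κ₂)) ((H : ℝ) ^ θ) ∪ ↑(univ.biUnion Bad)).Finite :=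
    (exc_finite _ _ _ _ _ _).union (Finset.finite_toSet _)
  have h1 := (Set.ncard_le_ncard hsub hfin).trans (Set.ncard_union_le _ _)
  rw [Set.ncard_coe_finset] at h1
  have h2 : ((Exceptional d m A H ((H : ℝ) ^ κ) ((H : ℝ) ^ θ)).ncard : ℝ) ≤
      ((Exc d m A H ((H : ℝ) ^ (κ + r * κ₂)) ((H : ℝ) ^ θ)).ncard : ℝ) +
        (((univ.biUnion Bad : Finset (∀ i, Monomials N (d i) → ℤ))).card : ℝ) := by exact_mod_cast h1
  have h3 := h0 A K hA H hH
  have h4 : (H : ℝ) ^ (-η₀) ≤ (H : ℝ) ^ (-min η₀ κ₂) :=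
    Real.rpow_le_rpow_of_exponent_le hH1 (by linarith [min_le_left η₀ κ₂])
  have h5 : (H : ℝ) ^ (-κ₂) ≤ (H : ℝ) ^ (-min η₀ κ₂) :=
    Real.rpow_le_rpow_of_exponent_le hH1 (by linarith [min_le_right η₀ κ₂])
  calc _ ≤ C₀ * K * (H : ℝ) ^ (-η₀) * Pz + c₁ * (H : ℝ) ^ (-κ₂) * Pz := h2.trans (add_le_add h3 hbad)
    _ ≤ C₀ * K * (H : ℝ) ^ (-min η₀ κ₂) * Pz + c₁ * (H : ℝ) ^ (-min η₀ κ₂) * Pz := by
        refine add_le_add ?_ ?_
        · exact mul_le_mul_of_nonneg_right (mul_le_mul_of_nonneg_left h4 (mul_nonneg hC₀ hK0)) hPz0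
        · exact mul_le_mul_of_nonneg_right (mul_le_mul_of_nonneg_left h5 hc₁0) hPz0
    _ = (C₀ * K + c₁) * ((H : ℝ) ^ (-min η₀ κ₂) * Pz) := by ring
    _ ≤ ((C₀ + c₁) * (K + 1)) * ((H : ℝ) ^ (-min η₀ κ₂) * Pz) := by
        refine mul_le_mul_of_nonneg_right ?_ (by positivity)
        have h6 : 0 ≤ c₁ * K := mul_nonneg hc₁0 hK0
        nlinarith
    _ = _ := by ring

/-- **Pairs of general type.** -/
theorem main2 (hN : 1 ≤ N) (hr : 0 < r) (d : Fin r → ℕ) (hd : ∀ i, 1 ≤ d i) (m : Fin r → ℕ∞)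
    (hm : ∀ i, 2 ≤ m i) {β κ : ℝ} (hβ : 0 ≤ β) (hκ0 : 0 ≤ κ) (hκ1 : κ < 1)
    (hgt : β < ∑ i, d i * (1 - rc (m i))) :
    ∃ θ η C : ℝ, 1 < θ ∧ 0 < η ∧ ∀ (A : Set (Fin (N + 1) → ℤ)) (K : ℝ),
      (∀ L : ℕ, 1 ≤ L → ((pts A L).ncard : ℝ) ≤ K * (L : ℝ) ^ β) → ∀ H : ℕ, 1 ≤ H →
      ((Exceptional d m A H ((H : ℝ) ^ κ) ((H : ℝ) ^ θ)).ncard : ℝ) ≤
        C * (K + 1) * (H : ℝ) ^ (-η) * ∏ i, ((2 * H + 1 : ℕ) : ℝ) ^ Fintype.card (Monomials N (d i)) := by
  have hrc : ∀ i, rc (m i) ≤ 1 / 2 := fun i => rc_le (hm i)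
  have hrc0 : ∀ i, 0 ≤ rc (m i) := fun i => rc_nonneg _
  set DR : ℝ := β + ∑ i, d i * rc (m i) with hDR
  have hDR0 : 0 ≤ DR := add_nonneg hβ (sum_nonneg fun i _ => mul_nonneg (Nat.cast_nonneg _) (hrc0 i))
  have h1 : ∑ i, (d i : ℝ) * (1 - rc (m i)) = ∑ i, (d i : ℝ) - ∑ i, d i * rc (m i) := by
    rw [← sum_sub_distrib]
    exact sum_congr rfl fun i _ => by ring
  have h2 : DR < ∑ i, (d i : ℝ) := by
    rw [hDR]
    linarith
  have h3 : ∑ i, (rc (m i) + κ * (1 - rc (m i))) ≤ ∑ i : Fin r, (1 : ℝ) := by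
    refine sum_le_sum fun i _ => ?_
    have h4 := hrc i
    nlinarith
  have h5 : ∑ i, ((d i : ℝ) + 1) = ∑ i, (d i : ℝ) + ∑ i : Fin r, (1 : ℝ) := sum_add_distrib
  set gap : ℝ := ∑ i, (d i : ℝ) - DR with hgap
  have hgap0 : 0 < gap := by
    rw [hgap]
    linarith
  set θ : ℝ := 1 + gap / (2 * (DR + 1)) with hθ
  have hθ1 : 1 < θ := by
    rw [hθ]
    have : 0 < gap / (2 * (DR + 1)) := by positivity
    linarith
  have h6 : θ * DR < ∑ i, (d i : ℝ) := by
    have h7 : gap / (2 * (DR + 1)) * DR ≤ gap / 2 := by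
      rw [div_mul_eq_mul_div, div_le_div_iff₀ (by positivity) (by norm_num)]
      nlinarith
    have h8 : θ * DR = DR + gap / (2 * (DR + 1)) * DR := by
      rw [hθ]
      ring
    rw [h8]
    linarith
  obtain ⟨η, C, hη, h⟩ := main1 hN hr d hd m hm (κ := κ) (θ := θ) hβ hκ0 hκ1 hθ1.le (by
    rw [h5]
    linarith)
  exact ⟨θ, η, C, hθ1, hη, h⟩

/-- the rational points of projective space -/
theorem pts_univ (N : ℕ) {L : ℕ} (hL : 1 ≤ L) :
    ((pts (N := N) Set.univ L).ncard : ℝ) ≤ 3 ^ (N + 1) * (L : ℝ) ^ ((N : ℝ) + 1) := by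
  have h1 : pts (N := N) Set.univ L ⊆ ↑(Fintype.piFinset fun _ : Fin (N + 1) => Icc (-(L : ℤ)) L) := by
    intro x hx
    rw [mem_coe, Fintype.mem_piFinset]
    intro j
    rw [mem_Icc]
    exact abs_le.1 (hx.2.2 j)
  have h2 := Set.ncard_le_ncard h1 (Finset.finite_toSet _)
  rw [Set.ncard_coe_finset, Fintype.card_piFinset, prod_const, card_univ, Fintype.card_fin,
    Int.card_Icc] at h2
  have h3 : ((L : ℤ) + 1 - -(L : ℤ)).toNat = 2 * L + 1 := by omega
  rw [h3] at h2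
  have h4 : ((pts (N := N) Set.univ L).ncard : ℝ) ≤ (((2 * L + 1) ^ (N + 1) : ℕ) : ℝ) := by exact_mod_cast h2
  refine h4.trans ?_
  have hL1 : (1 : ℝ) ≤ L := by exact_mod_cast hL
  have h5 : (L : ℝ) ^ ((N : ℝ) + 1) = (L : ℝ) ^ (N + 1) := by
    rw [← Nat.cast_succ, Real.rpow_natCast]
  rw [h5, ← mul_pow]
  push_cast
  exact pow_le_pow_left₀ (by positivity) (by linarith) _

end final

end Pool.Agent.L0h11.RP
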